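import Pool.Agent.Helper158.FG.Grp

set_option autoImplicit false

namespace Pool.Agent.Helper158.FG

theorem gl_add {n : ℕ} (v w : Fin n → ℚ) (r : FreeGroup (Fin n)) :
    FreeGroup.lift (fun i => Multiplicative.ofAdd ((v + w) i)) r =
      FreeGroup.lift (fun i => Multiplicative.ofAdd (v i)) r *
        FreeGroup.lift (fun i => Multiplicative.ofAdd (w i)) r := by
  have h : FreeGroup.lift (fun i => Multiplicative.ofAdd ((v + w) i)) =
      FreeGroup.lift (fun i => Multiplicative.ofAdd (v i)) *
        FreeGroup.lift (fun i => Multiplicative.ofAdd (w i)) := by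
    apply FreeGroup.ext_hom
    intro i
    rw [MonoidHom.mul_apply, FreeGroup.lift_apply_of, FreeGroup.lift_apply_of,
      FreeGroup.lift_apply_of]
    rfl
  rw [h]
  rfl

theorem gl_smul {n : ℕ} (c : ℚ) (v : Fin n → ℚ) (r : FreeGroup (Fin n)) :
    FreeGroup.lift (fun i => Multiplicative.ofAdd ((c • v) i)) r =
      Multiplicative.ofAdd
        (c * Multiplicative.toAdd (FreeGroup.lift (fun i => Multiplicative.ofAdd (v i)) r)) := by
  have h : FreeGroup.lift (fun i => Multiplicative.ofAdd ((c • v) i)) =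
      (AddMonoidHom.toMultiplicative (AddMonoidHom.mulLeft c)).comp
        (FreeGroup.lift (fun i => Multiplicative.ofAdd (v i))) := by
    apply FreeGroup.ext_hom
    intro i
    rw [MonoidHom.comp_apply, FreeGroup.lift_apply_of, FreeGroup.lift_apply_of]
    rfl
  rw [h]
  rfl

theorem generators_le {Γ : Type} [Group Γ] [Finite Γ] {n : ℕ} (R : Finset (FreeGroup (Fin n)))
    (e : Γ ≃* PresentedGroup (R : Set (FreeGroup (Fin n)))) : n ≤ R.card := by
  classical
  by_contra hlt
  rw [not_le] at hlt
  let L : (Fin n → ℚ) →ₗ[ℚ] (R → ℚ) :=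
    { toFun := fun v r => Multiplicative.toAdd
        (FreeGroup.lift (fun i => Multiplicative.ofAdd (v i)) (r : FreeGroup (Fin n)))
      map_add' := by
        intro v w
        funext r
        rw [gl_add]
        rfl
      map_smul' := by
        intro c v
        funext r
        rw [gl_smul]
        rfl }
  have hker : LinearMap.ker L ≠ ⊥ := LinearMap.ker_ne_bot_of_finrank_lt (by
    rw [Module.finrank_fintype_fun_eq_card, Module.finrank_fintype_fun_eq_card, Fintype.card_fin,
      Fintype.card_coe]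
    exact hlt)
  obtain ⟨v, hv, hv0⟩ := Submodule.exists_mem_ne_zero_of_ne_bot hker
  have hrel : ∀ r ∈ (R : Set (FreeGroup (Fin n))),
      FreeGroup.lift (fun i => Multiplicative.ofAdd (v i)) r = 1 := by
    intro r hr
    have h1 : L v = 0 := LinearMap.mem_ker.1 hv
    have h2 := congrFun h1 ⟨r, hr⟩
    exact h2
  let φ : PresentedGroup (R : Set (FreeGroup (Fin n))) →* Multiplicative ℚ :=
    PresentedGroup.toGroup hrel
  haveI : Finite (PresentedGroup (R : Set (FreeGroup (Fin n)))) := Finite.of_equiv Γ e.toEquiv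
  apply hv0
  funext i
  have hφ : φ (PresentedGroup.of i) = Multiplicative.ofAdd (v i) := PresentedGroup.toGroup.of hrel
  have hfin : IsOfFinOrder (PresentedGroup.of i : PresentedGroup (R : Set (FreeGroup (Fin n)))) :=
    isOfFinOrder_of_finite _
  obtain ⟨m, hm, hm1⟩ := isOfFinOrder_iff_pow_eq_one.1 hfin
  have h3 := congrArg φ hm1
  rw [map_pow, hφ, map_one] at h3
  have h4 : (m : ℚ) * v i = 0 := by
    have h5 := congrArg Multiplicative.toAdd h3
    rw [toAdd_pow, toAdd_one, toAdd_ofAdd, nsmul_eq_mul] at h5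
    exact h5
  rcases mul_eq_zero.1 h4 with h | h
  · exact absurd (by exact_mod_cast h) hm.ne'
  · exact h

theorem deficiency_G : IsGreatest (deficiencies G) 0 := by
  classical
  haveI : Finite G := Nat.finite_of_card_ne_zero (by rw [card_G]; norm_num)
  constructor
  · refine ⟨2, {FreeGroup.of 1 ^ 3,
      (FreeGroup.of 1)⁻¹ * FreeGroup.of 0 * FreeGroup.of 1 * (FreeGroup.of 0 ^ 2)⁻¹}, ?_, ?_⟩
    · have h : ((({FreeGroup.of 1 ^ 3,
          (FreeGroup.of 1)⁻¹ * FreeGroup.of 0 * FreeGroup.of 1 * (FreeGroup.of 0 ^ 2)⁻¹} :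
          Finset (FreeGroup (Fin 2))) : Set (FreeGroup (Fin 2)))) = rels := by
        simp [rels]
      rw [h]
      exact ⟨MulEquiv.refl _⟩
    · rw [Finset.card_pair]
      · norm_num
      · intro h
        have h1 := congrArg (FreeGroup.lift
          (fun i : Fin 2 => if i = 0 then Multiplicative.ofAdd (1 : ℤ) else 1)) h
        have h2 := congrArg Multiplicative.toAdd h1
        simp at h2
  · rintro d ⟨n, R, ⟨e⟩, rfl⟩
    have h := generators_le R e
    have h' : (n : ℤ) ≤ R.card := by exact_mod_cast h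
    linarith

end Pool.Agent.Helper158.FG
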