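import Mathlib

set_option autoImplicit false

/-!
# Definitions used in `MP_9533c6_gt.OrderTwentyOne`
-/

namespace Pool.Agent.Helper158.FG

/-- The relators `b³` and `b⁻¹ a b a⁻²` in the free group on `a = of 0` and `b = of 1`. -/
def rels : Set (FreeGroup (Fin 2)) :=
  {FreeGroup.of 1 ^ 3,
    (FreeGroup.of 1)⁻¹ * FreeGroup.of 0 * FreeGroup.of 1 * (FreeGroup.of 0 ^ 2)⁻¹}

/-- The group `G = ⟨a, b | b³ = 1, b⁻¹ a b = a²⟩`, given by two generators and two relators. -/
abbrev G : Type := PresentedGroup rels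

/-- The values `number of generators - number of relations` of the finite presentations of a group.
The deficiency of the group is the greatest of these values. -/
def deficiencies (Γ : Type) [Group Γ] : Set ℤ :=
  {d : ℤ | ∃ (n : ℕ) (R : Finset (FreeGroup (Fin n))),
    Nonempty (Γ ≃* PresentedGroup (R : Set (FreeGroup (Fin n)))) ∧ d = (n : ℤ) - R.card}

/-- The permutation module `ℤ[S]` of a `Γ`-set `S`: the element `g` sends the basis vector `s` to
the basis vector `g • s`. -/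
noncomputable def perm (Γ S : Type) [Monoid Γ] [MulAction Γ S] :
    Γ →* AddMonoid.End (S →₀ ℤ) where
  toFun g := Finsupp.mapDomain.addMonoidHom (g • ·)
  map_one' := by
    refine Finsupp.addHom_ext fun s n => ?_
    change Finsupp.mapDomain _ (Finsupp.single s n) = Finsupp.single s n
    rw [Finsupp.mapDomain_single, one_smul]
  map_mul' g h := by
    refine Finsupp.addHom_ext fun s n => ?_
    change Finsupp.mapDomain _ (Finsupp.single s n) =
      Finsupp.mapDomain _ (Finsupp.mapDomain _ (Finsupp.single s n))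
    rw [Finsupp.mapDomain_single, Finsupp.mapDomain_single, Finsupp.mapDomain_single, mul_smul]

/-- Singular `n`-simplices of a space `Y`: continuous maps from the standard `n`-simplex. -/
abbrev Sing (Y : Type) [TopologicalSpace Y] (n : ℕ) : Type :=
  C(stdSimplex ℝ (Fin (n + 1)), Y)

/-- The `i`-th face of a singular `(n+1)`-simplex. -/
noncomputable def face {Y : Type} [TopologicalSpace Y] (n : ℕ) (i : Fin (n + 2))
    (σ : Sing Y (n + 1)) : Sing Y n :=
  σ.comp ⟨stdSimplex.map i.succAbove, stdSimplex.continuous_map _⟩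

/-- Integral singular chains. -/
abbrev Ch (Y : Type) [TopologicalSpace Y] (n : ℕ) : Type := Sing Y n →₀ ℤ

/-- The boundary `∂ σ = ∑ (-1)^i (i-th face of σ)` of singular chains. -/
noncomputable def bd (Y : Type) [TopologicalSpace Y] (n : ℕ) : Ch Y (n + 1) →+ Ch Y n :=
  Finsupp.liftAddHom fun σ =>
    zmultiplesHom _ (∑ i : Fin (n + 2), (-1 : ℤ) ^ (i : ℕ) • Finsupp.single (face n i σ) 1)

/-- Singular `n`-cycles of `Y`. -/
noncomputable def cycles (Y : Type) [TopologicalSpace Y] : (n : ℕ) → AddSubgroup (Ch Y n)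
  | 0 => ⊤
  | n + 1 => (bd Y n).ker

/-- The integral singular homology group `H_n(Y)`. -/
abbrev Homology (Y : Type) [TopologicalSpace Y] (n : ℕ) : Type :=
  cycles Y n ⧸ (bd Y n).range.addSubgroupOf (cycles Y n)

section

variable (Γ Y : Type) [Group Γ] [TopologicalSpace Y] [MulAction Γ Y] [ContinuousConstSMul Γ Y]
  {B : Type} [AddCommGroup B] (ρ : Γ →* AddMonoid.End B)

/-- The equivariant cochains `Hom_{ℤ[Γ]}(C_n(Y), B)` with coefficients in a `ℤ[Γ]`-module `B`. -/
def cochains (n : ℕ) : AddSubgroup (Ch Y n →+ B) where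
  carrier := {f | ∀ (g : Γ) (c : Ch Y n), f (perm Γ (Sing Y n) g c) = ρ g (f c)}
  zero_mem' := by
    intro g c
    simp
  add_mem' := by
    intro f h hf hh g c
    simp only [AddMonoidHom.add_apply, map_add, hf g c, hh g c]
  neg_mem' := by
    intro f hf g c
    simp only [AddMonoidHom.neg_apply, map_neg, hf g c]

/-- The cocycles. -/
noncomputable def cocycles (n : ℕ) : AddSubgroup (Ch Y n →+ B) :=
  cochains Γ Y ρ n ⊓ (AddMonoidHom.compHom' (M := Ch Y (n + 1)) (N := Ch Y n) (P := B) (bd Y n)).ker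

/-- The coboundaries. -/
noncomputable def coboundaries : (n : ℕ) → AddSubgroup (Ch Y n →+ B)
  | 0 => ⊥
  | n + 1 => (cochains Γ Y ρ n).map
      (AddMonoidHom.compHom' (M := Ch Y (n + 1)) (N := Ch Y n) (P := B) (bd Y n))

/-- The cohomology group `H^n(Y / Γ; B)` of the quotient `Y / Γ` of `Y` by a free action of `Γ`,
with local coefficients `B`. -/
abbrev Coh (n : ℕ) : Type :=
  cocycles Γ Y ρ n ⧸ (coboundaries Γ Y ρ n).addSubgroupOf (cocycles Γ Y ρ n)

/-- Consequences of Poincaré duality of formal dimension 3 for `X = Y / Γ`, where `Y` is the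
universal cover of `X` and `Γ = π₁(X)`: `H^4(X; B) ≅ H_{-1}(X; B^w) = 0` for every `ℤ[Γ]`-module
`B`, and `H^i(X; ℤ[Γ]) ≅ H_{3-i}(X; ℤ[Γ]^w) ≅ H_{3-i}(Y; ℤ)` for `i = 0, 1`. -/
structure Duality3 : Prop where
  top : ∀ (B : Type) [AddCommGroup B] (ρ : Γ →* AddMonoid.End B), Subsingleton (Coh Γ Y ρ 4)
  one : Nonempty (Coh Γ Y (perm Γ Γ) 1 ≃+ Homology Y 2)
  zero : Nonempty (Coh Γ Y (perm Γ Γ) 0 ≃+ Homology Y 3)

/-- Consequences, for a finite group `Γ`, of Poincaré duality of formal dimension 3 with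
coefficients `ℤ[Γ]` only, for `X = Y / Γ`. A class `[X] ∈ H_3(X; ℤ^w)` is given by a chain `c` of
`Y` whose transfer `z = ∑_g w(g) g c` is a cycle. Cap product with `[X]` is an isomorphism
`H^0(X; ℤ[Γ]) = ℤ → H_3(X; ℤ[Γ]) = H_3(Y; ℤ)` which sends `1` to the class of `z`; so `H_3(Y; ℤ)`
is infinite cyclic, generated by the class of `z`. Also `H^1(X; ℤ[Γ]) ≅ H_2(Y; ℤ)`. -/
structure Fundamental3 : Prop where
  one : Nonempty (Coh Γ Y (perm Γ Γ) 1 ≃+ Homology Y 2)
  zero : ∃ (w : Γ →* ℤˣ) (c z : Ch Y 3),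
    z = ∑ᶠ g : Γ, (w g : ℤ) • perm Γ (Sing Y 3) g c ∧ bd Y 2 z = 0 ∧
    (∀ x : Ch Y 3, bd Y 2 x = 0 → ∃ (m : ℤ) (y : Ch Y 4), x = m • z + bd Y 3 y) ∧
    ∀ (m : ℤ) (y : Ch Y 4), m • z = bd Y 3 y → m = 0

end

end Pool.Agent.Helper158.FG
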