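import Pool.Agent.Helper158.FG.Defs

set_option autoImplicit false

namespace Pool.Agent.Helper158.FG

open CategoryTheory Limits

/-- the generator `a` -/
def a : G := PresentedGroup.of 0

/-- the generator `b` -/
def b : G := PresentedGroup.of 1

theorem pow_mod_of_pow_eq_one_aux {x : G} {n : ℕ} (h : x ^ n = 1) (i : ℕ) :
    x ^ (i % n) = x ^ i := by
  conv_rhs => rw [← Nat.mod_add_div i n, pow_add, pow_mul, h, one_pow, mul_one]

theorem rel_b : b ^ 3 = 1 := by
  have h := PresentedGroup.one_of_mem (rels := rels) (x := FreeGroup.of 1 ^ 3) (by simp [rels])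
  simpa [b, PresentedGroup.of] using h

theorem rel_ab : b⁻¹ * a * b = a ^ 2 := by
  have h := PresentedGroup.one_of_mem (rels := rels)
    (x := (FreeGroup.of 1)⁻¹ * FreeGroup.of 0 * FreeGroup.of 1 * (FreeGroup.of 0 ^ 2)⁻¹)
    (by simp [rels])
  have h2 : b⁻¹ * a * b * (a ^ 2)⁻¹ = 1 := by
    simpa [a, b, PresentedGroup.of] using h
  exact mul_inv_eq_one.mp h2

theorem conj_pow_aux (k : ℕ) : b⁻¹ * a ^ k * b = a ^ (2 * k) := by
  induction k with
  | zero => simp
  | succ k ih =>
    have : b⁻¹ * a ^ (k + 1) * b = (b⁻¹ * a ^ k * b) * (b⁻¹ * a * b) := by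
      rw [pow_succ]; group
    rw [this, ih, rel_ab, ← pow_add]
    congr 1

theorem a_pow : a ^ 7 = 1 := by
  have h1 := conj_pow_aux 1
  have h2 := conj_pow_aux 2
  have h4 := conj_pow_aux 4
  norm_num at h1 h2 h4
  have h8 : a = a ^ 8 := by
    have e : a = (b ^ 3)⁻¹ * a * b ^ 3 := by rw [rel_b]; simp
    have e2 : (b ^ 3)⁻¹ * a * b ^ 3 = b⁻¹ * (b⁻¹ * (b⁻¹ * a * b) * b) * b := by
      simp only [pow_succ, pow_zero, one_mul, mul_inv_rev, mul_assoc]
    rw [e2, h1, h2, h4] at e
    exact e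
  have h9 : a * a ^ 7 = a * 1 := by
    rw [mul_one, ← pow_succ']
    exact h8.symm
  exact mul_left_cancel h9

theorem b_mul_a : b * a = a ^ 4 * b := by
  have h4 := conj_pow_aux 4
  norm_num at h4
  have h8 : a ^ 8 = a := by
    rw [show 8 = 7 + 1 from rfl, pow_succ, a_pow, one_mul]
  rw [h8] at h4
  calc b * a = b * (b⁻¹ * a ^ 4 * b) := by rw [h4]
    _ = a ^ 4 * b := by rw [mul_assoc, mul_inv_cancel_left]

theorem b_mul_a_pow (k : ℕ) : b * a ^ k = a ^ (4 * k) * b := by
  induction k with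
  | zero => simp
  | succ k ih =>
    rw [pow_succ, ← mul_assoc, ih, mul_assoc, b_mul_a, ← mul_assoc, ← pow_add]
    congr 2

theorem b_pow_mul_a_pow (j k : ℕ) : b ^ j * a ^ k = a ^ (4 ^ j * k) * b ^ j := by
  induction j with
  | zero => simp
  | succ j ih =>
    rw [pow_succ', mul_assoc, ih, ← mul_assoc, b_mul_a_pow, mul_assoc]
    congr 2
    ring

/-- the permutation `x ↦ x + 1` of `ZMod 7` -/
def permA : Equiv.Perm (ZMod 7) := Equiv.addRight 1

/-- the permutation `x ↦ 4 x` of `ZMod 7` -/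
def permB : Equiv.Perm (ZMod 7) where
  toFun x := 4 * x
  invFun x := 2 * x
  left_inv := by decide
  right_inv := by decide

/-- the action of `G` on `ZMod 7` -/
def phi : G →* Equiv.Perm (ZMod 7) :=
  PresentedGroup.toGroup (rels := rels) (f := ![permA, permB]) (by
    intro r hr
    simp only [rels, Set.mem_insert_iff, Set.mem_singleton_iff] at hr
    rcases hr with rfl | rfl
    · simp only [map_pow, FreeGroup.lift_apply_of]
      apply Equiv.ext
      show ∀ x : ZMod 7, permB (permB (permB x)) = x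
      decide
    · simp only [map_mul, map_inv, map_pow, FreeGroup.lift_apply_of]
      rw [mul_inv_eq_one]
      apply Equiv.ext
      show ∀ x : ZMod 7, permB.symm (permA (permB x)) = permA (permA x)
      decide)

theorem phi_a : phi a = permA := by
  simp [phi, a]

theorem phi_b : phi b = permB := by
  simp [phi, b]

theorem permA_pow (i : ℕ) (x : ZMod 7) : (permA ^ i) x = x + i := by
  induction i with
  | zero => simp
  | succ i ih =>
    rw [pow_succ', Equiv.Perm.mul_apply, ih]
    simp [permA, add_assoc]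

theorem permB_pow (j : ℕ) (x : ZMod 7) : (permB ^ j) x = 4 ^ j * x := by
  induction j with
  | zero => simp
  | succ j ih =>
    rw [pow_succ', Equiv.Perm.mul_apply, ih]
    show 4 * (4 ^ j * x) = 4 ^ (j + 1) * x
    ring

theorem a_ne : a ≠ 1 := by
  intro h
  have h1 : permA = 1 := by rw [← phi_a, h, map_one]
  have h2 : permA 0 = (1 : Equiv.Perm (ZMod 7)) 0 := by rw [h1]
  revert h2
  decide

theorem closure_ab : Subgroup.closure ({a, b} : Set G) = ⊤ := by
  have h := PresentedGroup.closure_range_of rels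
  have h2 : Set.range (PresentedGroup.of : Fin 2 → PresentedGroup rels) = {a, b} := by
    ext x
    constructor
    · rintro ⟨i, rfl⟩
      fin_cases i
      · left; rfl
      · right; rfl
    · rintro (rfl | rfl)
      · exact ⟨0, rfl⟩
      · exact ⟨1, rfl⟩
  rw [← h2]
  exact h

theorem normal_form (x : G) : ∃ i j : ℕ, x = a ^ i * b ^ j := by
  let H : Subgroup G :=
    { carrier := {x | ∃ i j : ℕ, x = a ^ i * b ^ j}
      mul_mem' := by
        rintro _ _ ⟨i, j, rfl⟩ ⟨k, l, rfl⟩
        refine ⟨i + 4 ^ j * k, j + l, ?_⟩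
        rw [pow_add, pow_add]
        calc a ^ i * b ^ j * (a ^ k * b ^ l) = a ^ i * (b ^ j * a ^ k) * b ^ l := by group
          _ = _ := by rw [b_pow_mul_a_pow]; group
      one_mem' := ⟨0, 0, by simp⟩
      inv_mem' := by
        rintro _ ⟨i, j, rfl⟩
        refine ⟨4 ^ (2 * j) * (6 * i), 2 * j, ?_⟩
        rw [← b_pow_mul_a_pow]
        have e1 : (b ^ j)⁻¹ = b ^ (2 * j) := by
          rw [inv_eq_iff_mul_eq_one, ← pow_add, show j + 2 * j = 3 * j by ring, pow_mul, rel_b,
            one_pow]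
        have e2 : (a ^ i)⁻¹ = a ^ (6 * i) := by
          rw [inv_eq_iff_mul_eq_one, ← pow_add, show i + 6 * i = 7 * i by ring, pow_mul, a_pow,
            one_pow]
        rw [mul_inv_rev, e1, e2] }
  have hH : Subgroup.closure ({a, b} : Set G) ≤ H := by
    rw [Subgroup.closure_le]
    rintro x (rfl | rfl)
    · exact ⟨1, 0, by simp⟩
    · exact ⟨0, 1, by simp⟩
  rw [closure_ab] at hH
  exact hH (Subgroup.mem_top x)

theorem bij_G : Function.Bijective fun p : Fin 7 × Fin 3 => a ^ (p.1 : ℕ) * b ^ (p.2 : ℕ) := by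
  let g : Fin 7 × Fin 3 → G := fun p => a ^ (p.1 : ℕ) * b ^ (p.2 : ℕ)
  have hev : ∀ (p : Fin 7 × Fin 3) (x : ZMod 7),
      phi (g p) x = 4 ^ (p.2 : ℕ) * x + ((p.1 : ℕ) : ZMod 7) := by
    intro p x
    show phi (a ^ (p.1 : ℕ) * b ^ (p.2 : ℕ)) x = _
    rw [map_mul, map_pow, map_pow, phi_a, phi_b, Equiv.Perm.mul_apply, permA_pow, permB_pow]
  have hinj : Function.Injective g := by
    intro p q hpq
    have h0 := hev p 0
    have h1 := hev p 1
    rw [hpq, hev q 0] at h0
    rw [hpq, hev q 1] at h1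
    have key : ∀ p q : Fin 7 × Fin 3,
        4 ^ (q.2 : ℕ) * (0 : ZMod 7) + ((q.1 : ℕ) : ZMod 7) =
          4 ^ (p.2 : ℕ) * (0 : ZMod 7) + ((p.1 : ℕ) : ZMod 7) →
        4 ^ (q.2 : ℕ) * (1 : ZMod 7) + ((q.1 : ℕ) : ZMod 7) =
          4 ^ (p.2 : ℕ) * (1 : ZMod 7) + ((p.1 : ℕ) : ZMod 7) → p = q := by
      decide +kernel
    exact key p q h0 h1
  have hsurj : Function.Surjective g := by
    intro x
    obtain ⟨i, j, rfl⟩ := normal_form x
    refine ⟨(⟨i % 7, Nat.mod_lt _ (by norm_num)⟩, ⟨j % 3, Nat.mod_lt _ (by norm_num)⟩), ?_⟩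
    show a ^ (i % 7) * b ^ (j % 3) = a ^ i * b ^ j
    have e1 : a ^ (i % 7) = a ^ i := (pow_mod_of_pow_eq_one_aux a_pow i)
    have e2 : b ^ (j % 3) = b ^ j := (pow_mod_of_pow_eq_one_aux rel_b j)
    rw [e1, e2]
  exact ⟨hinj, hsurj⟩

theorem card_G : Nat.card G = 21 := by
  rw [← Nat.card_congr (Equiv.ofBijective _ bij_G)]
  simp

theorem not_free_product (F H : Type) [Group F] [Group H]
    [IsFreeGroup F] [Nontrivial F] : IsEmpty (G ≃* Monoid.Coprod F H) := by
  constructor
  intro e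
  haveI : Finite G := Nat.finite_of_card_ne_zero (by rw [card_G]; norm_num)
  haveI : Finite (Monoid.Coprod F H) := Finite.of_equiv G e.toEquiv
  haveI : Finite F := Finite.of_injective _ (Monoid.Coprod.inl_injective (M := F) (N := H))
  obtain ⟨x, hx⟩ := exists_ne (1 : F)
  let t := IsFreeGroup.toFreeGroup F
  have h1 : x ^ Nat.card F = 1 := pow_card_eq_one'
  have h2 : (t x) ^ Nat.card F = 1 := by rw [← map_pow, h1, map_one]
  have h3 : t x = 1 := pow_left_injective (M := FreeGroup (IsFreeGroup.Generators F))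
    (Nat.card_pos (α := F)).ne' (by simpa using h2)
  exact hx (t.injective (by rw [h3, map_one]))

section transferAux

attribute [local instance] Subgroup.fintypeQuotientOfFiniteIndex

open scoped Classical in
noncomputable def tu {k Γ : Type} [CommRing k] [Group Γ] (S : Subgroup Γ) [S.FiniteIndex]
    (A : Rep.{0} k Γ) : A ⟶ Rep.ind S.subtype (Rep.res S.subtype A) :=
  Rep.resCoindToHom S.subtype A (Rep.res S.subtype A) (𝟙 _) ≫
    (Rep.indCoindIso (Rep.res S.subtype A)).inv

noncomputable def tv {k Γ : Type} [CommRing k] [Group Γ] (S : Subgroup Γ)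
    (A : Rep.{0} k Γ) : Rep.ind S.subtype (Rep.res S.subtype A) ⟶ A :=
  (Rep.indResHomEquiv S.subtype (Rep.res S.subtype A) A).symm (𝟙 _)

theorem tv_mk {k Γ : Type} [CommRing k] [Group Γ] (S : Subgroup Γ)
    (A : Rep.{0} k Γ) (g : Γ) (a : A) :
    (tv S A).hom (Representation.IndV.mk S.subtype (Rep.res S.subtype A).ρ g a) = A.ρ g⁻¹ a := by
  simp [tv]

theorem tuv {k Γ : Type} [CommRing k] [Group Γ] (S : Subgroup Γ) [S.FiniteIndex]
    (A : Rep.{0} k Γ) (a : A) : (tu S A ≫ tv S A).hom a = S.index • a := by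
  classical
  have h1 : (tu S A ≫ tv S A).hom a = (tv S A).hom ((tu S A).hom a) := rfl
  rw [h1]
  have h2 : (tu S A).hom a = Rep.coindToInd (Rep.res S.subtype A)
      ((Rep.resCoindToHom S.subtype A (Rep.res S.subtype A) (𝟙 _)).hom a) := rfl
  rw [h2, Rep.coindToInd_apply, map_sum]
  refine (Finset.sum_congr rfl (g := fun _ => a) ?_).trans ?_
  · intro q _
    induction q using Quotient.inductionOn with | h g =>
    rw [Quotient.liftOn_mk, tv_mk]
    simp
  · rw [Finset.sum_const, Finset.card_univ, QuotientGroup.card_quotient_rightRel,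
      ← Nat.card_eq_fintype_card]
    rfl

theorem tchain {k Γ : Type} [CommRing k] [Group Γ] (A : Rep.{0} k Γ) (m : ℕ) (f : A ⟶ A)
    (hf : ∀ a : A, f.hom a = m • a) :
    groupHomology.chainsMap (MonoidHom.id Γ) f = m • 𝟙 (groupHomology.inhomogeneousChains A) := by
  ext i : 1
  apply ModuleCat.hom_ext
  rw [groupHomology.chainsMap_id_f_hom_eq_mapRange]
  refine Finsupp.lhom_ext fun x a => ?_
  have h1 : (Finsupp.mapRange.linearMap f.hom.toLinearMap) (Finsupp.single x a)
      = Finsupp.single x (f.hom a) := by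
    simp
  rw [h1, hf]
  have h2 : ((m • 𝟙 (groupHomology.inhomogeneousChains A)).f i).hom (Finsupp.single x a)
      = m • Finsupp.single x a := by
    rw [HomologicalComplex.nsmul_f_apply]
    simp
  rw [h2, Finsupp.smul_single]

theorem tmap {k Γ : Type} [CommRing k] [Group Γ] (A : Rep.{0} k Γ) (m n : ℕ) (f : A ⟶ A)
    (hf : ∀ a : A, f.hom a = m • a) :
    groupHomology.map (MonoidHom.id Γ) f n = m • 𝟙 (groupHomology A n) := by
  unfold groupHomology.map
  rw [tchain A m f hf]
  have h := (HomologicalComplex.homologyFunctor (ModuleCat k) (ComplexShape.down ℕ) n).map_nsmul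
    (f := 𝟙 (groupHomology.inhomogeneousChains A)) (n := m)
  have h2 : (HomologicalComplex.homologyFunctor (ModuleCat k) (ComplexShape.down ℕ) n).map
    (m • 𝟙 (groupHomology.inhomogeneousChains A)) = HomologicalComplex.homologyMap
      (m • 𝟙 (groupHomology.inhomogeneousChains A)) n := rfl
  rw [← h2, h, CategoryTheory.Functor.map_id]
  rfl

end transferAux

theorem transfer {k Γ : Type} [CommRing k] [Group Γ] (S : Subgroup Γ) [S.FiniteIndex]
    (A : Rep k Γ) (n : ℕ) (h : IsZero (groupHomology (Rep.res S.subtype A) n)) :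
    (S.index : k) • 𝟙 (groupHomology A n) = 0 := by
  classical
  have h1 := tmap A S.index n (tu S A ≫ tv S A) (tuv S A)
  rw [groupHomology.map_id_comp] at h1
  have hz : IsZero (groupHomology (Rep.ind S.subtype (Rep.res S.subtype A)) n) :=
    h.of_iso (groupHomology.indIso S (Rep.res S.subtype A) n)
  have h2 : groupHomology.map (MonoidHom.id Γ) (tu S A) n = 0 := hz.eq_of_tgt _ _
  rw [h2, zero_comp] at h1
  rw [Nat.cast_smul_eq_nsmul]
  exact h1.symm

theorem cyclic_even_aux {Γ : Type} [CommGroup Γ] [Fintype Γ] [DecidableEq Γ] (g : Γ)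
    (hg : ∀ x, x ∈ Subgroup.zpowers g) :
    IsZero (groupHomology (Rep.trivial ℤ Γ ℤ) 4) := by
  refine IsZero.of_iso ?_ (Rep.FiniteCyclicGroup.groupHomologyIsoEven (Rep.trivial ℤ Γ ℤ) g hg 4
    (by decide))
  rw [← ShortComplex.exact_iff_isZero_homology, ShortComplex.moduleCat_exact_iff]
  intro x hx
  refine ⟨0, ?_⟩
  rw [map_zero]
  have h1 : (Fintype.card Γ : ℤ) * (x : ℤ) = 0 := by
    simpa [Rep.norm, Representation.norm] using hx
  have h2 : (Fintype.card Γ : ℤ) ≠ 0 := by
    have : 0 < Fintype.card Γ := Fintype.card_pos_iff.mpr ⟨g⟩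
    exact_mod_cast this.ne'
  rcases mul_eq_zero.mp h1 with h | h
  · exact absurd h h2
  · exact h.symm

theorem cyclic_even {Γ : Type} [Group Γ] [Finite Γ] [IsCyclic Γ] :
    IsZero (groupHomology (Rep.trivial ℤ Γ ℤ) 4) := by
  classical
  letI : Fintype Γ := Fintype.ofFinite Γ
  letI : CommGroup Γ := IsCyclic.commGroup
  obtain ⟨g, hg⟩ := IsCyclic.exists_generator (α := Γ)
  exact cyclic_even_aux g hg

theorem H4_comb {k : Type} [CommRing k] (M : ModuleCat k) (r s u v : k)
    (hr : r • 𝟙 M = 0) (hs : s • 𝟙 M = 0) (h : u * r + v * s = 1) : IsZero M := by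
  rw [IsZero.iff_id_eq_zero]
  have h1 : (1 : k) • 𝟙 M = 0 := by
    rw [← h, add_smul, mul_smul, mul_smul, hr, hs, smul_zero, smul_zero, add_zero]
  rwa [one_smul] at h1

theorem H4_cyc {k : Type} [CommRing k] (A : Rep k G) (g : G) (p q : ℕ) (hg : orderOf g = p)
    (hp : 0 < p) (hpq : p * q = 21)
    (h : IsZero (groupHomology (Rep.res (Subgroup.zpowers g).subtype A) 4)) :
    (q : k) • 𝟙 (groupHomology A 4) = 0 := by
  have hcard : Nat.card (Subgroup.zpowers g) = p := by
    rw [Nat.card_zpowers, hg]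
  have hidx : (Subgroup.zpowers g).index = q := by
    have h1 := Subgroup.card_mul_index (Subgroup.zpowers g)
    rw [card_G, hcard, ← hpq] at h1
    exact Nat.eq_of_mul_eq_mul_left hp h1
  have hq : q ≠ 0 := by
    rintro rfl
    simp at hpq
  have : (Subgroup.zpowers g).FiniteIndex := ⟨by rw [hidx]; exact hq⟩
  have h3 := transfer (Subgroup.zpowers g) A 4 h
  rw [hidx] at h3
  exact h3

theorem H4_res (g : G) (hg : orderOf g ≠ 0) :
    IsZero (groupHomology (Rep.res (Subgroup.zpowers g).subtype (Rep.trivial ℤ G ℤ)) 4) := by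
  have : Finite (Subgroup.zpowers g) :=
    Nat.finite_of_card_ne_zero (by rw [Nat.card_zpowers]; exact hg)
  exact cyclic_even (Γ := Subgroup.zpowers g)

theorem H4 : IsZero (groupHomology (Rep.trivial ℤ G ℤ) 4) := by
  have hb1 : b ≠ 1 := by
    intro hb
    have h1 := rel_ab
    rw [hb, inv_one, one_mul, mul_one, pow_two] at h1
    exact a_ne (mul_eq_left.mp h1.symm)
  have ha : orderOf a = 7 := by
    have : Fact (Nat.Prime 7) := ⟨by norm_num⟩
    exact orderOf_eq_prime a_pow a_ne
  have hb : orderOf b = 3 := by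
    have : Fact (Nat.Prime 3) := ⟨by norm_num⟩
    exact orderOf_eq_prime rel_b hb1
  have h3 := H4_cyc (Rep.trivial ℤ G ℤ) a 7 3 ha (by norm_num) (by norm_num)
    (H4_res a (by rw [ha]; norm_num))
  have h7 := H4_cyc (Rep.trivial ℤ G ℤ) b 3 7 hb (by norm_num) (by norm_num)
    (H4_res b (by rw [hb]; norm_num))
  exact H4_comb _ _ _ (-2) 1 h3 h7 (by norm_num)

theorem trivial_group {k Γ : Type} [CommRing k] [Group Γ] [Subsingleton Γ] (A : Rep k Γ) (n : ℕ) :
    IsZero (groupHomology A (n + 1)) := by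
  classical
  exact isZero_groupHomology_succ_of_subsingleton A n

theorem rational (n : ℕ) : IsZero (groupHomology (Rep.trivial ℚ G ℚ) (n + 1)) := by
  have hfin : Finite G := Nat.finite_of_card_ne_zero (by rw [card_G]; norm_num)
  have hidx : (⊥ : Subgroup G).FiniteIndex := inferInstance
  have h := transfer (⊥ : Subgroup G) (Rep.trivial ℚ G ℚ) (n + 1) (trivial_group _ n)
  rw [Subgroup.index_bot, card_G] at h
  rw [IsZero.iff_id_eq_zero]
  have h21 : ((21 : ℕ) : ℚ) ≠ 0 := by norm_num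
  exact (smul_eq_zero.1 h).resolve_left h21

end Pool.Agent.Helper158.FG
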