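import Pool.Agent.Helper158.FG.Defs

set_option autoImplicit false

namespace Pool.Agent.Helper158.FG

theorem bd_single {Y : Type} [TopologicalSpace Y] (n : ℕ) (σ : Sing Y (n + 1)) (m : ℤ) :
    bd Y n (Finsupp.single σ m) =
      m • ∑ i : Fin (n + 2), (-1 : ℤ) ^ (i : ℕ) • Finsupp.single (face n i σ) 1 := by
  unfold bd
  rw [Finsupp.liftAddHom_apply_single]
  rfl

theorem perm_single {Γ S : Type} [Group Γ] [MulAction Γ S] (g : Γ) (s : S) (m : ℤ) :
    perm Γ S g (Finsupp.single s m) = Finsupp.single (g • s) m :=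
  Finsupp.mapDomain_single

theorem bd_perm {Γ Y : Type} [Group Γ] [TopologicalSpace Y] [MulAction Γ Y]
    [ContinuousConstSMul Γ Y] (n : ℕ) (g : Γ) (c : Ch Y (n + 1)) :
    bd Y n (perm Γ (Sing Y (n + 1)) g c) = perm Γ (Sing Y n) g (bd Y n c) := by
  have h : (bd Y n).comp (perm Γ (Sing Y (n + 1)) g : Ch Y (n + 1) →+ Ch Y (n + 1)) =
      (perm Γ (Sing Y n) g : Ch Y n →+ Ch Y n).comp (bd Y n) := by
    refine Finsupp.addHom_ext fun σ m => ?_
    change bd Y n (perm Γ (Sing Y (n + 1)) g (Finsupp.single σ m)) =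
      perm Γ (Sing Y n) g (bd Y n (Finsupp.single σ m))
    rw [perm_single, bd_single, bd_single, map_zsmul, map_sum]
    congr 1
    refine Finset.sum_congr rfl fun i _ => ?_
    rw [map_zsmul, perm_single]
    rfl
  exact DFunLike.congr_fun h c

theorem bd_bd {Y : Type} [TopologicalSpace Y] (n : ℕ) (c : Ch Y (n + 2)) :
    bd Y n (bd Y (n + 1) c) = 0 := by
  have h : (bd Y n).comp (bd Y (n + 1)) = 0 := by
    refine Finsupp.addHom_ext fun σ m => ?_
    rw [AddMonoidHom.comp_apply, AddMonoidHom.zero_apply, bd_single, map_zsmul, map_sum]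
    have h2 : ∑ i : Fin (n + 1 + 2), bd Y n ((-1 : ℤ) ^ (i : ℕ) • Finsupp.single (face (n + 1) i σ) 1)
        = 0 := by
      have h3 : ∀ i : Fin (n + 1 + 2),
          bd Y n ((-1 : ℤ) ^ (i : ℕ) • Finsupp.single (face (n + 1) i σ) 1) =
          ∑ j : Fin (n + 2), ((-1 : ℤ) ^ ((i : ℕ) + (j : ℕ))) •
            Finsupp.single (face n j (face (n + 1) i σ)) 1 := by
        intro i
        rw [map_zsmul, bd_single, one_smul, Finset.smul_sum]
        refine Finset.sum_congr rfl fun j _ => ?_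
        rw [smul_smul, pow_add]
      simp only [h3]
      rw [← Finset.sum_product']
      refine Finset.sum_involution
        (fun (p : Fin (n + 1 + 2) × Fin (n + 2)) _ => (p.1.succAbove p.2, p.2.predAbove p.1))
        ?_ ?_ ?_ ?_
      · rintro ⟨i, j⟩ _
        simp only
        have hf : face n (j.predAbove i) (face (n + 1) (i.succAbove j) σ) =
            face n j (face (n + 1) i σ) := by
          unfold face
          ext x
          simp only [ContinuousMap.comp_apply, ContinuousMap.coe_mk]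
          congr 1
          rw [stdSimplex.map_comp_apply, stdSimplex.map_comp_apply]
          congr 1
          funext k
          exact Fin.succAbove_succAbove_succAbove_predAbove i j k
        rw [hf, Fin.neg_one_pow_succAbove_add_predAbove, neg_smul, add_neg_cancel]
      · rintro ⟨i, j⟩ _ _ heq
        have h1 := congrArg Prod.fst heq
        exact Fin.succAbove_ne i j h1
      · rintro ⟨i, j⟩ _
        exact Finset.mem_product.2 ⟨Finset.mem_univ _, Finset.mem_univ _⟩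
      · rintro ⟨i, j⟩ _
        simp only [Fin.succAbove_succAbove_predAbove, Fin.predAbove_predAbove_succAbove]
    rw [h2, smul_zero]
  exact DFunLike.congr_fun h c

/-- the augmentation -/
noncomputable def aug (S : Type) : (S →₀ ℤ) →+ ℤ := Finsupp.liftAddHom fun _ => AddMonoidHom.id ℤ

theorem aug_perm {Γ S : Type} [Group Γ] [MulAction Γ S] (g : Γ) (c : S →₀ ℤ) :
    aug S (perm Γ S g c) = aug S c := by
  have h : (aug S).comp (perm Γ S g : (S →₀ ℤ) →+ (S →₀ ℤ)) = aug S := by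
    refine Finsupp.addHom_ext fun σ m => ?_
    change aug S (perm Γ S g (Finsupp.single σ m)) = aug S (Finsupp.single σ m)
    rw [perm_single]
    unfold aug
    rw [Finsupp.liftAddHom_apply_single, Finsupp.liftAddHom_apply_single]
  exact DFunLike.congr_fun h c

theorem aug_bd {Y : Type} [TopologicalSpace Y] (c : Ch Y 1) : aug (Sing Y 0) (bd Y 0 c) = 0 := by
  have h : (aug (Sing Y 0)).comp (bd Y 0) = 0 := by
    refine Finsupp.addHom_ext fun σ m => ?_
    rw [AddMonoidHom.comp_apply, AddMonoidHom.zero_apply, bd_single, Fin.sum_univ_two, map_zsmul,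
      map_add, map_zsmul, map_zsmul]
    unfold aug
    rw [Finsupp.liftAddHom_apply_single, Finsupp.liftAddHom_apply_single]
    simp
  exact DFunLike.congr_fun h c

theorem std1' (x : stdSimplex ℝ (Fin 1)) : x = stdSimplex.vertex 0 := by
  have h := stdSimplex.sum_eq_one x
  ext i
  have hi : i = 0 := Subsingleton.elim _ _
  subst hi
  rw [Fin.sum_univ_one] at h
  rw [stdSimplex.vertex_coe, Pi.single_eq_same]
  exact h

theorem std1 (x : stdSimplex ℝ (Fin (0 + 1))) : x = stdSimplex.vertex 0 := std1' x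

theorem bd_zero_single {Y : Type} [TopologicalSpace Y] (τ : Sing Y 1) :
    bd Y 0 (Finsupp.single τ 1) =
      Finsupp.single (face 0 0 τ) 1 - Finsupp.single (face 0 1 τ) 1 := by
  rw [bd, Finsupp.liftAddHom_apply_single]
  rw [zmultiplesHom_apply, one_smul]
  rw [Fin.sum_univ_two]
  simp [sub_eq_add_neg]

theorem exists_edge {Y : Type} [TopologicalSpace Y] [PathConnectedSpace Y] (s₀ s : Sing Y 0) :
    ∃ τ : Sing Y 1, bd Y 0 (Finsupp.single τ 1) = Finsupp.single s 1 - Finsupp.single s₀ 1 := by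
  obtain ⟨γ⟩ := PathConnectedSpace.joined (s₀ (stdSimplex.vertex 0)) (s (stdSimplex.vertex 0))
  let φ : C(stdSimplex ℝ (Fin (1 + 1)), unitInterval) :=
    ⟨fun x => ⟨x 1, stdSimplex.zero_le x 1, stdSimplex.le_one x 1⟩, by
      refine Continuous.subtype_mk ?_ _
      exact (continuous_apply (1 : Fin (1 + 1))).comp continuous_subtype_val⟩
  refine ⟨(γ : C(unitInterval, Y)).comp φ, ?_⟩
  rw [bd_zero_single]
  have h0 : face 0 0 ((γ : C(unitInterval, Y)).comp φ) = s := by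
    ext x
    rw [std1 x]
    show γ (φ (stdSimplex.map (Fin.succAbove 0) (stdSimplex.vertex 0))) = _
    rw [stdSimplex.map_vertex]
    have : φ (stdSimplex.vertex (Fin.succAbove 0 (0 : Fin (0 + 1)))) = 1 := by
      apply Subtype.ext
      show (stdSimplex.vertex (S := ℝ) (Fin.succAbove 0 (0 : Fin (0 + 1)))) 1 = 1
      rw [stdSimplex.vertex_coe]
      rfl
    rw [this, γ.target]
  have h1 : face 0 1 ((γ : C(unitInterval, Y)).comp φ) = s₀ := by
    ext x
    rw [std1 x]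
    show γ (φ (stdSimplex.map (Fin.succAbove 1) (stdSimplex.vertex 0))) = _
    rw [stdSimplex.map_vertex]
    have : φ (stdSimplex.vertex (Fin.succAbove 1 (0 : Fin (0 + 1)))) = 0 := by
      apply Subtype.ext
      show (stdSimplex.vertex (S := ℝ) (Fin.succAbove 1 (0 : Fin (0 + 1)))) 1 = 0
      rw [stdSimplex.vertex_coe]
      rfl
    rw [this, γ.source]
  rw [h0, h1]

theorem conn {Y : Type} [TopologicalSpace Y] [PathConnectedSpace Y] (c : Ch Y 0)
    (hc : aug (Sing Y 0) c = 0) : ∃ x : Ch Y 1, bd Y 0 x = c := by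
  obtain ⟨y₀⟩ := (PathConnectedSpace.nonempty : Nonempty Y)
  let s₀ : Sing Y 0 := ContinuousMap.const _ y₀
  choose τ hτ using fun s : Sing Y 0 => exists_edge s₀ s
  let h : Ch Y 0 →+ Ch Y 1 :=
    Finsupp.liftAddHom fun s => zmultiplesHom _ (Finsupp.single (τ s) (1 : ℤ))
  have key : (bd Y 0).comp h = AddMonoidHom.id _ -
      ((zmultiplesHom (Ch Y 0) (Finsupp.single s₀ (1 : ℤ))).comp (aug (Sing Y 0))) := by
    refine Finsupp.addHom_ext fun s n => ?_
    have e1 : h (Finsupp.single s n) = n • Finsupp.single (τ s) (1 : ℤ) := by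
      simp only [h, Finsupp.liftAddHom_apply_single, zmultiplesHom_apply]
    have e2 : aug (Sing Y 0) (Finsupp.single s n) = n := by
      simp only [aug, Finsupp.liftAddHom_apply_single, AddMonoidHom.id_apply]
    rw [AddMonoidHom.comp_apply, e1, map_zsmul, hτ, AddMonoidHom.sub_apply,
      AddMonoidHom.comp_apply, e2, zmultiplesHom_apply, AddMonoidHom.id_apply, smul_sub]
    congr 1
    rw [Finsupp.smul_single, smul_eq_mul, mul_one]
  refine ⟨h c, ?_⟩
  have := DFunLike.congr_fun key c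
  rw [AddMonoidHom.comp_apply] at this
  rw [this, AddMonoidHom.sub_apply, AddMonoidHom.comp_apply, hc, map_zero, sub_zero,
    AddMonoidHom.id_apply]

theorem perm_alpha {Γ S : Type} [Group Γ] [MulAction Γ S] (c : Γ) (hc : c ^ 7 = 1)
    (free : ∀ s : S, c • s ≠ s) (x : S →₀ ℤ) (hx : ∑ j ∈ Finset.range 7, perm Γ S (c ^ j) x = 0) :
    ∃ y : S →₀ ℤ, x = perm Γ S c y - y := by
  classical
  have hsingle : ∀ (g : Γ) (s : S) (n : ℤ),
      perm Γ S g (Finsupp.single s n) = Finsupp.single (g • s) n := by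
    intro g s n
    change Finsupp.mapDomain _ (Finsupp.single s n) = _
    rw [Finsupp.mapDomain_single]
  obtain ⟨L, hL⟩ : ∃ L : (S →₀ ℤ) →+ (S →₀ ℤ), ∀ y, L y = perm Γ S c y - y :=
    ⟨AddMonoidHom.mk' (fun y => perm Γ S c y - y) (fun a b => by
      rw [map_add]; abel), fun y => rfl⟩
  have hR : ∀ (k : ℤ) (s : S) (n : ℤ),
      Finsupp.single ((c ^ k) • s) n - Finsupp.single s n ∈ L.range := by
    intro k
    induction k using Int.induction_on with
    | zero => intro s n; rw [zpow_zero, one_smul, sub_self]; exact zero_mem _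
    | succ k ih =>
      intro s n
      have h1 : Finsupp.single ((c ^ ((k : ℤ) + 1)) • s) n - Finsupp.single s n =
          L (Finsupp.single ((c ^ (k : ℤ)) • s) n) +
          (Finsupp.single ((c ^ (k : ℤ)) • s) n - Finsupp.single s n) := by
        rw [hL, hsingle, add_comm (k : ℤ) 1, zpow_one_add, mul_smul]; abel
      rw [h1]
      exact add_mem ⟨_, rfl⟩ (ih s n)
    | pred k ih =>
      intro s n
      have h1 : Finsupp.single ((c ^ (-(k : ℤ) - 1)) • s) n - Finsupp.single s n =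
          - L (Finsupp.single ((c ^ (-(k : ℤ) - 1)) • s) n) +
          (Finsupp.single ((c ^ (-(k : ℤ))) • s) n - Finsupp.single s n) := by
        have h2 : c • (c ^ (-(k : ℤ) - 1)) • s = (c ^ (-(k : ℤ))) • s := by
          rw [← mul_smul, ← zpow_one_add]; congr 2; ring
        rw [hL, hsingle, h2]; abel
      rw [h1]
      exact add_mem (neg_mem ⟨_, rfl⟩) (ih s n)
  let st : Setoid S := MulAction.orbitRel (Subgroup.zpowers c) S
  let rep : S → S := fun s => (Quotient.mk st s).out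
  have hrep : ∀ s, ∃ k : ℤ, (c ^ k) • s = rep s := by
    intro s
    have h1 : st (rep s) s := Quotient.exact (Quotient.out_eq (Quotient.mk st s))
    obtain ⟨⟨g, hg⟩, hgs⟩ := (MulAction.orbitRel_apply.1 h1)
    obtain ⟨k, hk⟩ := Subgroup.mem_zpowers_iff.1 hg
    exact ⟨k, by rw [hk]; exact hgs⟩
  have hinv : ∀ (j : ℕ) (s : S), rep ((c ^ j) • s) = rep s := by
    intro j s
    have h1 : Quotient.mk st ((c ^ j) • s) = Quotient.mk st s := by
      apply Quotient.sound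
      exact MulAction.orbitRel_apply.2 ⟨⟨c ^ j, Subgroup.npow_mem_zpowers c j⟩, rfl⟩
    change (Quotient.mk st ((c ^ j) • s)).out = (Quotient.mk st s).out
    rw [h1]
  have hmem : ∀ x : S →₀ ℤ, x - Finsupp.mapDomain rep x ∈ L.range := by
    intro x
    induction x using Finsupp.induction_linear with
    | zero => rw [Finsupp.mapDomain_zero, sub_self]; exact zero_mem _
    | add f g hf hg =>
      rw [Finsupp.mapDomain_add]
      have : f + g - (Finsupp.mapDomain rep f + Finsupp.mapDomain rep g) =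
          (f - Finsupp.mapDomain rep f) + (g - Finsupp.mapDomain rep g) := by abel
      rw [this]
      exact add_mem hf hg
    | single s n =>
      rw [Finsupp.mapDomain_single]
      obtain ⟨k, hk⟩ := hrep s
      rw [← hk, ← neg_sub]
      exact neg_mem (hR k s n)
  have hmd : ∀ j : ℕ, Finsupp.mapDomain rep (perm Γ S (c ^ j) x) = Finsupp.mapDomain rep x := by
    intro j
    change Finsupp.mapDomain rep (Finsupp.mapDomain _ x) = _
    rw [← Finsupp.mapDomain_comp]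
    congr 1
    funext s
    exact hinv j s
  have h7 : (7 : ℕ) • Finsupp.mapDomain rep x = 0 := by
    have h1 := congrArg (Finsupp.mapDomain.addMonoidHom (M := ℤ) rep) hx
    rw [map_sum, map_zero] at h1
    have h2 : ∀ j ∈ Finset.range 7, Finsupp.mapDomain.addMonoidHom (M := ℤ) rep
        (perm Γ S (c ^ j) x) = Finsupp.mapDomain rep x := fun j _ => hmd j
    rw [Finset.sum_congr rfl h2, Finset.sum_const, Finset.card_range] at h1
    exact h1
  have h0 : Finsupp.mapDomain rep x = 0 := by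
    ext s
    have := DFunLike.congr_fun h7 s
    simp only [Finsupp.coe_smul, Pi.smul_apply, Finsupp.coe_zero, Pi.zero_apply,
      nsmul_eq_mul] at this
    simp only [Finsupp.coe_zero, Pi.zero_apply]
    push_cast at this
    omega
  have := hmem x
  rw [h0, sub_zero] at this
  obtain ⟨y, hy⟩ := this
  exact ⟨y, by rw [← hy, hL]⟩

theorem pb_apply {Γ S : Type} [Group Γ] [MulAction Γ S] (g : Γ) (y : S →₀ ℤ) (s : S) :
    perm Γ S g y s = y (g⁻¹ • s) := by
  change Finsupp.mapDomain (g • ·) y s = _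
  conv_lhs => rw [← smul_inv_smul g s]
  exact Finsupp.mapDomain_apply (MulAction.injective g) y (g⁻¹ • s)

theorem pb_unique {Γ S : Type} [Group Γ] [MulAction Γ S] (c : Γ) (hc : c ^ 7 = 1)
    (free : ∀ s : S, c • s ≠ s) (s : S) (i j : ℕ) (hi : i < 7) (hj : j < 7)
    (h : (c ^ i)⁻¹ • s = (c ^ j)⁻¹ • s) : i = j := by
  by_contra hne
  obtain ⟨z, hz⟩ : ∃ z : ℤ, z = (j : ℤ) - i := ⟨_, rfl⟩
  have hz1 : z < 7 := by omega
  have hz2 : -7 < z := by omega
  have hz0 : z ≠ 0 := by omega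
  have hcop : IsCoprime z 7 := by
    rw [Int.isCoprime_iff_gcd_eq_one]
    interval_cases z <;> first | rfl | omega
  obtain ⟨m, n, hmn⟩ := hcop
  have hmem : c ^ z ∈ MulAction.stabilizer Γ ((c ^ i)⁻¹ • s) := by
    rw [MulAction.mem_stabilizer_iff]
    conv_lhs => rw [h]
    rw [hz, zpow_sub, zpow_natCast, zpow_natCast, smul_smul]
    have hcomm : c ^ j * (c ^ i)⁻¹ * (c ^ j)⁻¹ = (c ^ i)⁻¹ := by
      have h1 : Commute (c ^ j) ((c ^ i)⁻¹) := (Commute.pow_pow_self c j i).inv_right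
      rw [h1.eq, mul_assoc, mul_inv_cancel, mul_one]
    rw [hcomm]
  have hc1 : c = (c ^ z) ^ m := by
    have : c = c ^ (m * z + n * 7) := by rw [hmn, zpow_one]
    rw [zpow_add, mul_comm n 7, zpow_mul c 7 n] at this
    have h7 : c ^ (7 : ℤ) = 1 := by exact_mod_cast hc
    rw [h7, one_zpow, mul_one, mul_comm m z, zpow_mul] at this
    exact this
  have hmem2 : c ∈ MulAction.stabilizer Γ ((c ^ i)⁻¹ • s) := by
    have h9 := Subgroup.zpow_mem _ hmem m
    rwa [← hc1] at h9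
  rw [MulAction.mem_stabilizer_iff] at hmem2
  exact free _ hmem2

theorem perm_beta {Γ S : Type} [Group Γ] [MulAction Γ S] (c : Γ) (hc : c ^ 7 = 1)
    (free : ∀ s : S, c • s ≠ s) (x : S →₀ ℤ) (hx : perm Γ S c x = x) :
    ∃ y : S →₀ ℤ, x = ∑ j ∈ Finset.range 7, perm Γ S (c ^ j) y := by
  classical
  have hx1 : ∀ s, x (c⁻¹ • s) = x s := by
    intro s
    rw [← pb_apply, hx]
  have hxj : ∀ (j : ℕ) (s : S), x ((c ^ j)⁻¹ • s) = x s := by
    intro j
    induction j with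
    | zero => intro s; simp
    | succ j ih =>
      intro s
      rw [pow_succ, mul_inv_rev, mul_smul, hx1, ih]
  let r : S → S := fun s => Quotient.out (Quotient.mk (MulAction.orbitRel (Subgroup.zpowers c) S) s)
  have hr_inv : ∀ (g : Subgroup.zpowers c) (s : S), r (g • s) = r s := by
    intro g s
    simp only [r]
    congr 1
    apply Quotient.sound
    exact MulAction.mem_orbit s g
  have hr_mem : ∀ s, ∃ g : Subgroup.zpowers c, g • s = r s := by
    intro s
    have h1 : (MulAction.orbitRel (Subgroup.zpowers c) S).r (r s) s := Quotient.mk_out s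
    exact h1
  have hrj : ∀ (j : ℕ) (s : S), r ((c ^ j)⁻¹ • s) = r s := by
    intro j s
    have hm : (c ^ j)⁻¹ ∈ Subgroup.zpowers c :=
      Subgroup.inv_mem _ (Subgroup.pow_mem _ (Subgroup.mem_zpowers c) j)
    exact hr_inv ⟨(c ^ j)⁻¹, hm⟩ s
  refine ⟨x.filter (fun s => r s = s), ?_⟩
  ext s
  rw [Finsupp.finset_sum_apply]
  have hterm : ∀ j : ℕ, perm Γ S (c ^ j) (x.filter (fun s => r s = s)) s =
      if r s = (c ^ j)⁻¹ • s then x s else 0 := by
    intro j
    rw [pb_apply, Finsupp.filter_apply, hrj, hxj]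
  simp only [hterm]
  obtain ⟨⟨g, hg⟩, hgs⟩ := hr_mem s
  obtain ⟨k, rfl⟩ := Subgroup.mem_zpowers_iff.mp hg
  have hgs' : c ^ k • s = r s := hgs
  obtain ⟨j0, hj0, hj0'⟩ : ∃ j0 : ℕ, j0 < 7 ∧ (c ^ j0)⁻¹ = c ^ k := by
    refine ⟨((-k) % 7).toNat, by omega, ?_⟩
    have h1 : (((-k) % 7).toNat : ℤ) = (-k) % 7 := Int.toNat_of_nonneg (by omega)
    rw [← zpow_natCast, h1, ← zpow_neg]
    have h2 : -((-k) % 7) = k + 7 * ((-k) / 7) := by omega
    rw [h2, zpow_add, zpow_mul]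
    have h7 : c ^ (7 : ℤ) = 1 := by exact_mod_cast hc
    rw [h7, one_zpow, mul_one]
  rw [Finset.sum_eq_single j0]
  · rw [if_pos]
    rw [hj0', hgs']
  · intro j hj hne
    rw [if_neg]
    intro hcon
    apply hne
    apply pb_unique c hc free s j j0 (Finset.mem_range.mp hj) hj0
    rw [← hcon, hj0', hgs']
  · intro hn
    exact absurd (Finset.mem_range.mpr hj0) hn

theorem coh0 {Γ Y : Type} [Group Γ] [Finite Γ] [TopologicalSpace Y] [PathConnectedSpace Y]
    [MulAction Γ Y] [ContinuousConstSMul Γ Y] : Nonempty (Coh Γ Y (perm Γ Γ) 0 ≃+ ℤ) := by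
  classical
  haveI := Fintype.ofFinite Γ
  obtain ⟨N, hN⟩ : ∃ N : Γ →₀ ℤ, ∀ g, N g = 1 :=
    ⟨Finsupp.equivFunOnFinite.symm (fun _ => 1), fun g => rfl⟩
  have hperm : ∀ (g : Γ) (v : Γ →₀ ℤ) (h : Γ), (perm Γ Γ g v) (g * h) = v h := by
    intro g v h
    exact Finsupp.mapDomain_apply (MulAction.injective g) v h
  have hNinv : ∀ g, perm Γ Γ g N = N := by
    intro g
    ext h
    have := hperm g N (g⁻¹ * h)
    rw [mul_inv_cancel_left] at this
    rw [this, hN, hN]
  obtain ⟨y0⟩ : Nonempty Y := PathConnectedSpace.nonempty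
  obtain ⟨s0⟩ : Nonempty (Sing Y 0) := ⟨ContinuousMap.const _ y0⟩
  have haug : aug (Sing Y 0) (Finsupp.single s0 1) = 1 := by simp [aug]
  let F : ℤ → (Ch Y 0 →+ (Γ →₀ ℤ)) :=
    fun m => (zmultiplesHom (Γ →₀ ℤ) (m • N)).comp (aug (Sing Y 0))
  have hF : ∀ m c, F m c = (aug (Sing Y 0) c) • (m • N) := fun m c => rfl
  have hFm : ∀ m, F m ∈ cocycles Γ Y (perm Γ Γ) 0 := by
    intro m
    refine AddSubgroup.mem_inf.2 ⟨?_, ?_⟩
    · intro g c
      rw [hF, hF, aug_perm, map_zsmul, map_zsmul, hNinv]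
    · rw [AddMonoidHom.mem_ker]
      refine AddMonoidHom.ext fun x => ?_
      show F m (bd Y 0 x) = 0
      rw [hF, aug_bd, zero_smul]
  let φ : ℤ →+ cocycles Γ Y (perm Γ Γ) 0 := AddMonoidHom.mk' (fun m => ⟨F m, hFm m⟩) (by
    intro a b
    apply Subtype.ext
    refine AddMonoidHom.ext fun c => ?_
    show F (a + b) c = F a c + F b c
    rw [hF, hF, hF, add_smul, smul_add])
  let ψ : ℤ →+ Coh Γ Y (perm Γ Γ) 0 := (QuotientAddGroup.mk' _).comp φ
  have hinj : Function.Injective ψ := by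
    rw [injective_iff_map_eq_zero]
    intro m hm
    have h1 : φ m ∈ (coboundaries Γ Y (perm Γ Γ) 0).addSubgroupOf (cocycles Γ Y (perm Γ Γ) 0) :=
      (QuotientAddGroup.eq_zero_iff _).1 hm
    rw [AddSubgroup.mem_addSubgroupOf] at h1
    have h2 : F m = 0 := AddSubgroup.mem_bot.1 h1
    have h3 : F m (Finsupp.single s0 1) = 0 := by rw [h2]; rfl
    rw [hF, haug, one_smul] at h3
    have h4 := DFunLike.congr_fun h3 (1 : Γ)
    rw [Finsupp.smul_apply, hN] at h4
    simpa using h4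
  have hsurj : Function.Surjective ψ := by
    intro z
    obtain ⟨f, rfl⟩ := QuotientAddGroup.mk_surjective z
    obtain ⟨f, hf⟩ := f
    obtain ⟨hf1, hf2⟩ := AddSubgroup.mem_inf.1 hf
    rw [AddMonoidHom.mem_ker] at hf2
    have hf3 : ∀ x, f (bd Y 0 x) = 0 := fun x => DFunLike.congr_fun hf2 x
    obtain ⟨v, hv⟩ : ∃ v, v = f (Finsupp.single s0 1) := ⟨_, rfl⟩
    have hfc : ∀ c, f c = (aug (Sing Y 0) c) • v := by
      intro c
      have h0 : aug (Sing Y 0) (c - (aug (Sing Y 0) c) • Finsupp.single s0 1) = 0 := by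
        rw [map_sub, map_zsmul, haug]
        simp
      obtain ⟨x, hx⟩ := conn _ h0
      have h1 := hf3 x
      rw [hx, map_sub, map_zsmul, sub_eq_zero] at h1
      rw [h1, hv]
    have hvinv : ∀ g, perm Γ Γ g v = v := by
      intro g
      have h1 := hf1 g (Finsupp.single s0 1)
      rw [← hv, hfc, aug_perm, haug, one_smul] at h1
      exact h1.symm
    have hvN : v = (v 1) • N := by
      ext h
      have h1 := hperm h v 1
      rw [hvinv, mul_one] at h1
      rw [h1, Finsupp.smul_apply, hN]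
      simp
    refine ⟨v 1, ?_⟩
    have h5 : φ (v 1) = ⟨f, hf⟩ := by
      apply Subtype.ext
      refine AddMonoidHom.ext fun c => ?_
      show F (v 1) c = f c
      rw [hF, ← hvN, hfc]
    show QuotientAddGroup.mk' _ (φ (v 1)) = _
    rw [h5]
    rfl
  exact ⟨(AddEquiv.ofBijective ψ ⟨hinj, hsurj⟩).symm⟩

theorem coh1 {Γ Y : Type} [Group Γ] [Finite Γ] [TopologicalSpace Y] [PathConnectedSpace Y]
    [MulAction Γ Y] [ContinuousConstSMul Γ Y] (h1 : Subsingleton (Homology Y 1)) :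
    Subsingleton (Coh Γ Y (perm Γ Γ) 1) := by
  classical
  cases nonempty_fintype Γ
  have key : ∀ f : Ch Y 1 →+ (Γ →₀ ℤ), f ∈ cocycles Γ Y (perm Γ Γ) 1 →
      f ∈ coboundaries Γ Y (perm Γ Γ) 1 := by
    intro f hf
    obtain ⟨hf1, hf2⟩ := AddSubgroup.mem_inf.1 hf
    have hfe : ∀ (g : Γ) (c : Ch Y 1), f (perm Γ (Sing Y 1) g c) = perm Γ Γ g (f c) := hf1
    have hfb : ∀ e : Ch Y 2, f (bd Y 1 e) = 0 := by
      intro e
      rw [AddMonoidHom.mem_ker] at hf2
      exact DFunLike.congr_fun hf2 e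
    have hk : ∀ c : Ch Y 1, bd Y 0 c = 0 → f c = 0 := by
      intro c hc
      have hc' : c ∈ cycles Y 1 := hc
      have h2 : ((⟨c, hc'⟩ : cycles Y 1) : Homology Y 1) = 0 := Subsingleton.elim _ _
      have h3 := (QuotientAddGroup.eq_zero_iff (⟨c, hc'⟩ : cycles Y 1)).1 h2
      rw [AddSubgroup.mem_addSubgroupOf] at h3
      obtain ⟨e, he⟩ := h3
      have he' : bd Y 1 e = c := he
      rw [← he']
      exact hfb e
    have hk' : ∀ c c' : Ch Y 1, bd Y 0 c = bd Y 0 c' → f c = f c' := by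
      intro c c' h
      have h2 : f (c - c') = 0 := hk _ (by rw [map_sub, h, sub_self])
      rw [map_sub] at h2
      exact sub_eq_zero.1 h2
    obtain ⟨y0⟩ : Nonempty Y := inferInstance
    let s0 : Sing Y 0 := ContinuousMap.const _ y0
    have haug : aug (Sing Y 0) (Finsupp.single s0 1) = 1 := by
      simp [aug]
    have hx : ∀ c : Ch Y 0, ∃ x : Ch Y 1,
        bd Y 0 x = c - (aug (Sing Y 0) c) • (Finsupp.single s0 1 : Ch Y 0) := by
      intro c
      apply conn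
      rw [map_sub, map_zsmul, haug]
      simp
    choose X hX using hx
    let F : Ch Y 0 →+ (Γ →₀ ℤ) := AddMonoidHom.mk' (fun c => f (X c)) (by
      intro a b
      rw [← map_add]
      apply hk'
      rw [map_add, hX, hX, hX, map_add, add_smul]
      abel)
    have hF : ∀ y : Ch Y 1, F (bd Y 0 y) = f y := by
      intro y
      change f (X (bd Y 0 y)) = f y
      apply hk'
      rw [hX, aug_bd, zero_smul, sub_zero]
    let H : Ch Y 0 →+ (Γ →₀ ℤ) := AddMonoidHom.mk'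
      (fun c => ∑ g : Γ, Finsupp.single g ((F (perm Γ (Sing Y 0) g⁻¹ c)) 1)) (by
        intro a b
        rw [← Finset.sum_add_distrib]
        refine Finset.sum_congr rfl fun g _ => ?_
        rw [map_add, map_add, Finsupp.add_apply, Finsupp.single_add])
    have hH : ∀ c, H c = ∑ g : Γ, Finsupp.single g ((F (perm Γ (Sing Y 0) g⁻¹ c)) 1) :=
      fun c => rfl
    have hps : ∀ (k g : Γ) (n : ℤ), perm Γ Γ k (Finsupp.single g n) = Finsupp.single (k * g) n := by
      intro k g n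
      change Finsupp.mapDomain _ (Finsupp.single g n) = _
      rw [Finsupp.mapDomain_single, smul_eq_mul]
    have hHe : ∀ (k : Γ) (c : Ch Y 0), H (perm Γ (Sing Y 0) k c) = perm Γ Γ k (H c) := by
      intro k c
      rw [hH, hH, map_sum]
      have e1 : ∀ g : Γ, perm Γ Γ k (Finsupp.single g ((F (perm Γ (Sing Y 0) g⁻¹ c)) 1)) =
          Finsupp.single (k * g) ((F (perm Γ (Sing Y 0) (k * g)⁻¹ (perm Γ (Sing Y 0) k c))) 1) := by
        intro g
        rw [hps]
        congr 3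
        have : perm Γ (Sing Y 0) (k * g)⁻¹ (perm Γ (Sing Y 0) k c) =
            perm Γ (Sing Y 0) ((k * g)⁻¹ * k) c := by
          rw [map_mul]
          rfl
        rw [this]
        simp
      rw [Finset.sum_congr rfl (fun g _ => e1 g)]
      exact (Equiv.sum_comp (Equiv.mulLeft k) (fun g : Γ => (Finsupp.single g
        ((F (perm Γ (Sing Y 0) g⁻¹ (perm Γ (Sing Y 0) k c))) 1) : Γ →₀ ℤ))).symm
    have hHb : ∀ y : Ch Y 1, H (bd Y 0 y) = f y := by
      intro y
      rw [hH]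
      have e1 : ∀ g : Γ, (F (perm Γ (Sing Y 0) g⁻¹ (bd Y 0 y))) 1 = (f y) g := by
        intro g
        rw [← bd_perm, hF, hfe]
        change Finsupp.mapDomain (g⁻¹ • ·) (f y) 1 = (f y) g
        have : (1 : Γ) = g⁻¹ • g := by simp
        rw [this]
        exact Finsupp.mapDomain_apply (MulAction.injective g⁻¹) (f y) g
      rw [Finset.sum_congr rfl (fun g _ => by rw [e1 g])]
      exact Finsupp.univ_sum_single (f y)
    refine ⟨H, hHe, ?_⟩
    exact DFunLike.ext _ _ hHb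
  refine ⟨fun a b => ?_⟩
  have h0 : ∀ a : Coh Γ Y (perm Γ Γ) 1, a = 0 := by
    intro a
    induction a using QuotientAddGroup.induction_on with
    | H z =>
      rw [QuotientAddGroup.eq_zero_iff, AddSubgroup.mem_addSubgroupOf]
      exact key z.1 z.2
  rw [h0 a, h0 b]

theorem retract {Γ Y : Type} [Group Γ] [TopologicalSpace Y]
    [MulAction Γ Y] [ContinuousConstSMul Γ Y]
    (h : ∀ (B : Type) [AddCommGroup B] (ρ : Γ →* AddMonoid.End B), Subsingleton (Coh Γ Y ρ 4)) :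
    ∃ f : Ch Y 3 →+ Ch Y 3, (∀ (g : Γ) (x : Ch Y 3),
      f (perm Γ (Sing Y 3) g x) = perm Γ (Sing Y 3) g (f x)) ∧
      (∀ x, ∃ y : Ch Y 4, bd Y 3 y = f x) ∧ ∀ y : Ch Y 4, f (bd Y 3 y) = bd Y 3 y := by
  classical
  have hmem : ∀ (g : Γ) (x : (bd Y 3).range),
      perm Γ (Sing Y 3) g (x : Ch Y 3) ∈ (bd Y 3).range := by
    rintro g ⟨x, y, rfl⟩
    exact ⟨perm Γ (Sing Y 4) g y, bd_perm 3 g y⟩
  let ρ : Γ →* AddMonoid.End ((bd Y 3).range) :=
    { toFun := fun g => AddMonoidHom.codRestrict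
        ((perm Γ (Sing Y 3) g).comp (bd Y 3).range.subtype) (bd Y 3).range (hmem g)
      map_one' := by
        refine AddMonoidHom.ext fun x => Subtype.ext ?_
        change perm Γ (Sing Y 3) 1 (x : Ch Y 3) = x
        rw [map_one]
        rfl
      map_mul' := by
        intro g g'
        refine AddMonoidHom.ext fun x => Subtype.ext ?_
        change perm Γ (Sing Y 3) (g * g') (x : Ch Y 3) =
          perm Γ (Sing Y 3) g (perm Γ (Sing Y 3) g' (x : Ch Y 3))
        rw [map_mul]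
        rfl }
  have hρ : ∀ g (x : (bd Y 3).range), ((ρ g x : (bd Y 3).range) : Ch Y 3)
      = perm Γ (Sing Y 3) g (x : Ch Y 3) := fun g x => rfl
  have hcoc : (bd Y 3).rangeRestrict ∈ cocycles Γ Y ρ 4 := by
    refine ⟨?_, ?_⟩
    · intro g c
      refine Subtype.ext ?_
      rw [hρ]
      exact bd_perm 3 g c
    · refine AddMonoidHom.ext fun c => Subtype.ext ?_
      exact bd_bd 3 c
  have hsub := h ((bd Y 3).range) ρ
  have hzero : (QuotientAddGroup.mk (⟨(bd Y 3).rangeRestrict, hcoc⟩ : cocycles Γ Y ρ 4) :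
      Coh Γ Y ρ 4) = 0 := Subsingleton.elim _ _
  rw [QuotientAddGroup.eq_zero_iff, AddSubgroup.mem_addSubgroupOf] at hzero
  obtain ⟨k, hk, hk2⟩ := hzero
  have hk3 : ∀ y : Ch Y 4, ((k (bd Y 3 y) : (bd Y 3).range) : Ch Y 3) = bd Y 3 y := by
    intro y
    have := DFunLike.congr_fun hk2 y
    have h2 := congrArg (fun z : (bd Y 3).range => (z : Ch Y 3)) this
    exact h2
  refine ⟨(bd Y 3).range.subtype.comp k, ?_, ?_, ?_⟩
  · intro g x
    change ((k (perm Γ (Sing Y 3) g x) : (bd Y 3).range) : Ch Y 3) = _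
    rw [hk g x, hρ]
    rfl
  · intro x
    exact (k x).2
  · intro y
    exact hk3 y

theorem core_fac {Γ E : Type} [Group Γ] [AddCommGroup E] (r : Γ →* AddMonoid.End E) (a b : Γ)
    (ha : a ^ 7 = 1) (hab : b * a = a ^ 4 * b) :
    ∃ N U : E →+ E, (∀ x, N x = ∑ j ∈ Finset.range 7, r (a ^ j) x) ∧
      (∀ x, U x = x + r a x + r (a ^ 2) x + r (a ^ 3) x) ∧
      (∀ x, N (r a x) = N x) ∧ (∀ x, r a (N x) = N x) ∧
      (∀ x, N (r (a ^ 4) x) = N x) ∧ (∀ x, r (a ^ 4) (N x) = N x) ∧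
      (∀ x, N (r b x) = r b (N x)) ∧
      (∀ x, U (r a x - x) = r (a ^ 4) x - x) ∧
      (∀ x, N (U x) = (4 : ℤ) • N x) ∧ (∀ x, U (N x) = (4 : ℤ) • N x) := by
  have hm : ∀ (g h : Γ) (x : E), r g (r h x) = r (g * h) x := by
    intro g h x
    rw [map_mul]
    rfl
  have h1 : ∀ x : E, r 1 x = x := by
    intro x
    rw [map_one]
    rfl
  obtain ⟨N, hN⟩ : ∃ N : E →+ E, ∀ x, N x = ∑ j ∈ Finset.range 7, r (a ^ j) x :=
    ⟨{ toFun := fun x => ∑ j ∈ Finset.range 7, r (a ^ j) x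
       map_zero' := by simp
       map_add' := fun x y => by simp [Finset.sum_add_distrib] }, fun x => rfl⟩
  obtain ⟨U, hU⟩ : ∃ U : E →+ E, ∀ x, U x = x + r a x + r (a ^ 2) x + r (a ^ 3) x :=
    ⟨{ toFun := fun x => x + r a x + r (a ^ 2) x + r (a ^ 3) x
       map_zero' := by simp
       map_add' := fun x y => by simp only [map_add]; abel }, fun x => rfl⟩
  have hN' : ∀ x, N x = x + r a x + r (a ^ 2) x + r (a ^ 3) x + r (a ^ 4) x + r (a ^ 5) x + r (a ^ 6) x := by
    intro x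
    rw [hN]
    simp only [Finset.sum_range_succ, Finset.sum_range_zero, pow_zero, pow_one, h1, zero_add]
  have hNa : ∀ x, N (r a x) = N x := by
    intro x
    rw [hN', hN']
    simp only [hm]
    rw [show a ^ 2 * a = a ^ 3 by group, show a ^ 3 * a = a ^ 4 by group, show a ^ 4 * a = a ^ 5 by group,
      show a ^ 5 * a = a ^ 6 by group, show a ^ 6 * a = a ^ 7 by group, show a * a = a ^ 2 from (pow_two a).symm, ha, h1]
    abel
  have haN : ∀ x, r a (N x) = N x := by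
    intro x
    rw [hN']
    simp only [map_add, hm]
    rw [show a * a ^ 2 = a ^ 3 by group, show a * a ^ 3 = a ^ 4 by group, show a * a ^ 4 = a ^ 5 by group,
      show a * a ^ 5 = a ^ 6 by group, show a * a ^ 6 = a ^ 7 by group, show a * a = a ^ 2 from (pow_two a).symm, ha, h1]
    abel
  have hp : ∀ j x, N (r (a ^ j) x) = N x := by
    intro j
    induction j with
    | zero => intro x; rw [pow_zero, h1]
    | succ j ih => intro x; rw [pow_succ, ← hm, ih, hNa]
  have hp' : ∀ j x, r (a ^ j) (N x) = N x := by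
    intro j
    induction j with
    | zero => intro x; rw [pow_zero, h1]
    | succ j ih => intro x; rw [pow_succ, ← hm, haN, ih]
  refine ⟨N, U, hN, hU, hNa, haN, hp 4, hp' 4, ?_, ?_, ?_, ?_⟩
  · intro x
    rw [hN', hN']
    simp only [map_add, hm]
    have hba : ∀ j : ℕ, b * a ^ j = a ^ (4 * j) * b := by
      intro j
      induction j with
      | zero => simp
      | succ j ih => rw [pow_succ, ← mul_assoc, ih, mul_assoc, hab, ← mul_assoc, ← pow_add]; congr 2
    rw [hab, hba 2, hba 3, hba 4, hba 5, hba 6]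
    rw [show a ^ (4 * 2) = a ^ 7 * a by group, show a ^ (4 * 3) = a ^ 7 * a ^ 5 by group,
      show a ^ (4 * 4) = a ^ 7 * a ^ 7 * a ^ 2 by group, show a ^ (4 * 5) = a ^ 7 * a ^ 7 * a ^ 6 by group,
      show a ^ (4 * 6) = a ^ 7 * a ^ 7 * a ^ 7 * a ^ 3 by group, ha]
    simp only [one_mul]
    abel
  · intro x
    rw [hU]
    simp only [map_sub, hm]
    rw [show a ^ 2 * a = a ^ 3 by group, show a ^ 3 * a = a ^ 4 by group, show a * a = a ^ 2 from (pow_two a).symm]
    abel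
  · intro x
    rw [hU, map_add, map_add, map_add, hNa, hp, hp]
    rw [show (4 : ℤ) = 1 + 1 + 1 + 1 by norm_num, add_smul, add_smul, add_smul, one_smul]
  · intro x
    rw [hU, haN, hp', hp']
    rw [show (4 : ℤ) = 1 + 1 + 1 + 1 by norm_num, add_smul, add_smul, add_smul, one_smul]

/-- NOTE (helper170): the original statement without `hdd0`, `hdd1` is false; the two hypotheses
`d d = 0` are needed in step (III). -/
theorem core {Γ E0 E1 E2 E3 : Type} [Group Γ] [AddCommGroup E0] [AddCommGroup E1]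
    [AddCommGroup E2] [AddCommGroup E3]
    (r0 : Γ →* AddMonoid.End E0) (r1 : Γ →* AddMonoid.End E1) (r2 : Γ →* AddMonoid.End E2)
    (r3 : Γ →* AddMonoid.End E3)
    (d0 : E1 →+ E0) (d1 : E2 →+ E1) (d2 : E3 →+ E2) (e : E0 →+ ℤ)
    (hd0 : ∀ g x, d0 (r1 g x) = r0 g (d0 x)) (hd1 : ∀ g x, d1 (r2 g x) = r1 g (d1 x))
    (hd2 : ∀ g x, d2 (r3 g x) = r2 g (d2 x)) (he : ∀ g x, e (r0 g x) = e x)
    (hed : ∀ x, e (d0 x) = 0) (hdd0 : ∀ x, d0 (d1 x) = 0) (hdd1 : ∀ x, d1 (d2 x) = 0)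
    (hsurj : ∃ x, e x = 1)
    (x0 : ∀ x, e x = 0 → ∃ y, d0 y = x) (x1 : ∀ x, d0 x = 0 → ∃ y, d1 y = x)
    (x2 : ∀ x, d1 x = 0 → ∃ y, d2 y = x)
    (i : E3) (hi : d2 i = 0) (x3 : ∀ x, d2 x = 0 → ∃ m : ℤ, x = m • i)
    (tf : ∀ m : ℤ, m • i = 0 → m = 0)
    (a b : Γ) (ha : a ^ 7 = 1) (hb : b ^ 3 = 1) (hab : b * a = a ^ 4 * b)
    (al0 : ∀ x, ∑ j ∈ Finset.range 7, r0 (a ^ j) x = 0 → ∃ y, x = r0 a y - y)
    (al1 : ∀ x, ∑ j ∈ Finset.range 7, r1 (a ^ j) x = 0 → ∃ y, x = r1 a y - y)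
    (al2 : ∀ x, ∑ j ∈ Finset.range 7, r2 (a ^ j) x = 0 → ∃ y, x = r2 a y - y)
    (al3 : ∀ x, ∑ j ∈ Finset.range 7, r3 (a ^ j) x = 0 → ∃ y, x = r3 a y - y)
    (be0 : ∀ x, r0 a x = x → ∃ y, x = ∑ j ∈ Finset.range 7, r0 (a ^ j) y)
    (be1 : ∀ x, r1 a x = x → ∃ y, x = ∑ j ∈ Finset.range 7, r1 (a ^ j) y)
    (be2 : ∀ x, r2 a x = x → ∃ y, x = ∑ j ∈ Finset.range 7, r2 (a ^ j) y) : False := by
  obtain ⟨N0, U0, hN0, hU0, N0a, aN0, N0c, cN0, N0b, U0a, N0U, U0N⟩ := core_fac r0 a b ha hab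
  obtain ⟨N1, U1, hN1, hU1, N1a, aN1, N1c, cN1, N1b, U1a, N1U, U1N⟩ := core_fac r1 a b ha hab
  obtain ⟨N2, U2, hN2, hU2, N2a, aN2, N2c, cN2, N2b, U2a, N2U, U2N⟩ := core_fac r2 a b ha hab
  obtain ⟨N3, U3, hN3, hU3, N3a, aN3, N3c, cN3, N3b, U3a, N3U, U3N⟩ := core_fac r3 a b ha hab
  have dN0 : ∀ x, d0 (N1 x) = N0 (d0 x) := by
    intro x; rw [hN1, hN0, map_sum]; simp only [hd0]
  have dN1 : ∀ x, d1 (N2 x) = N1 (d1 x) := by
    intro x; rw [hN2, hN1, map_sum]; simp only [hd1]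
  have dN2 : ∀ x, d2 (N3 x) = N2 (d2 x) := by
    intro x; rw [hN3, hN2, map_sum]; simp only [hd2]
  have dU0 : ∀ x, d0 (U1 x) = U0 (d0 x) := by
    intro x; rw [hU1, hU0]; simp only [map_add, hd0]
  have dU1 : ∀ x, d1 (U2 x) = U1 (d1 x) := by
    intro x; rw [hU2, hU1]; simp only [map_add, hd1]
  have dU2 : ∀ x, d2 (U3 x) = U2 (d2 x) := by
    intro x; rw [hU3, hU2]; simp only [map_add, hd2]
  have eU0 : ∀ x, e (N0 x) = 7 * e x := by
    intro x
    rw [hN0, map_sum]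
    simp only [he]
    simp
  have hm3 : ∀ (g h : Γ) (x : E3), r3 g (r3 h x) = r3 (g * h) x := by
    intro g h x
    rw [map_mul]
    rfl
  have h13 : ∀ x : E3, r3 1 x = x := by
    intro x
    rw [map_one]
    rfl
  -- invariance of `i`
  have inv : ∀ g : Γ, ∃ m : ℤ, ∀ n : ℕ, r3 (g ^ n) i = (m ^ n) • i := by
    intro g
    obtain ⟨m, hm⟩ := x3 (r3 g i) (by rw [hd2, hi, map_zero])
    refine ⟨m, fun n => ?_⟩
    induction n with
    | zero => rw [pow_zero, h13, pow_zero, one_smul]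
    | succ n ih => rw [pow_succ, ← hm3, hm, map_zsmul, ih, smul_smul, pow_succ, mul_comm]
  have ia : r3 a i = i := by
    obtain ⟨m, hm⟩ := inv a
    have h7 := hm 7
    rw [ha, h13] at h7
    have : (m ^ 7 - 1) • i = 0 := by rw [sub_smul, one_smul, ← h7, sub_self]
    have h8 := tf _ this
    have h9 : m ^ 7 = 1 := by linarith
    have h10 : m = 1 := by
      rcases lt_trichotomy m 0 with h | h | h
      · have := Odd.pow_neg (by decide : Odd 7) h
        rw [h9] at this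
        norm_num at this
      · rw [h] at h9; norm_num at h9
      · exact (pow_eq_one_iff_of_nonneg h.le (by norm_num)).1 h9
    have := hm 1
    rw [pow_one, pow_one, h10, one_smul] at this
    exact this
  have ib : r3 b i = i := by
    obtain ⟨m, hm⟩ := inv b
    have h7 := hm 3
    rw [hb, h13] at h7
    have : (m ^ 3 - 1) • i = 0 := by rw [sub_smul, one_smul, ← h7, sub_self]
    have h8 := tf _ this
    have h9 : m ^ 3 = 1 := by linarith
    have h10 : m = 1 := by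
      rcases lt_trichotomy m 0 with h | h | h
      · have := Odd.pow_neg (by decide : Odd 3) h
        rw [h9] at this
        norm_num at this
      · rw [h] at h9; norm_num at h9
      · exact (pow_eq_one_iff_of_nonneg h.le (by norm_num)).1 h9
    have := hm 1
    rw [pow_one, pow_one, h10, one_smul] at this
    exact this
  have iaj : ∀ j : ℕ, r3 (a ^ j) i = i := by
    intro j
    induction j with
    | zero => rw [pow_zero, h13]
    | succ j ih => rw [pow_succ, ← hm3, ia, ih]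
  have iN : N3 i = (7 : ℤ) • i := by
    rw [hN3]
    simp only [iaj]
    simp
    rw [← natCast_zsmul]
    norm_num
  -- ladders
  obtain ⟨L, hL⟩ : ∃ L : Γ → E0 → E1 → E2 → E3 → ℤ → Prop, ∀ c e0 e1 e2 e3 k,
      L c e0 e1 e2 e3 k ↔ (e e0 = 1 ∧ d0 e1 = r0 c e0 - e0 ∧ d1 e2 = N1 e1 ∧
        d2 e3 = r2 c e2 - e2 ∧ N3 e3 = k • i) := ⟨_, fun _ _ _ _ _ _ => Iff.rfl⟩
  have hc : ∀ c : Γ, (c = a ∨ c = a ^ 4) →
      (∀ x, N0 (r0 c x) = N0 x) ∧ (∀ x, N1 (r1 c x) = N1 x) ∧ (∀ x, N2 (r2 c x) = N2 x) ∧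
      (∀ x, N3 (r3 c x) = N3 x) ∧ (∀ x, r1 c (N1 x) = N1 x) ∧ (∀ x, r2 c (N2 x) = N2 x) := by
    intro c hc
    rcases hc with rfl | rfl
    · exact ⟨N0a, N1a, N2a, N3a, aN1, aN2⟩
    · exact ⟨N0c, N1c, N2c, N3c, cN1, cN2⟩
  have exist : ∀ c : Γ, (c = a ∨ c = a ^ 4) → ∀ e0, e e0 = 1 →
      ∃ e1 e2 e3 k, L c e0 e1 e2 e3 k := by
    intro c hcc e0 h0
    obtain ⟨c0, c1, c2, c3, c4, c5⟩ := hc c hcc
    obtain ⟨e1, he1⟩ := x0 (r0 c e0 - e0) (by rw [map_sub, he, sub_self])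
    obtain ⟨e2, he2⟩ := x1 (N1 e1) (by rw [dN0, he1, map_sub, c0, sub_self])
    obtain ⟨e3, he3⟩ := x2 (r2 c e2 - e2) (by rw [map_sub, hd1, he2, c4, sub_self])
    obtain ⟨k, hk⟩ := x3 (N3 e3) (by rw [dN2, he3, map_sub, c2, sub_self])
    exact ⟨e1, e2, e3, k, (hL _ _ _ _ _ _).2 ⟨h0, he1, he2, he3, hk⟩⟩
  have uniq : ∀ c : Γ, (c = a ∨ c = a ^ 4) → ∀ e0 e1 e2 e3 k f0 f1 f2 f3 k',
      L c e0 e1 e2 e3 k → L c f0 f1 f2 f3 k' → ∃ m : ℤ, k - k' = 7 * m := by
    intro c hcc e0 e1 e2 e3 k f0 f1 f2 f3 k' h h'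
    obtain ⟨c0, c1, c2, c3, c4, c5⟩ := hc c hcc
    obtain ⟨h0, h1, h2, h3, h4⟩ := (hL _ _ _ _ _ _).1 h
    obtain ⟨g0, g1, g2, g3, g4⟩ := (hL _ _ _ _ _ _).1 h'
    obtain ⟨y1, hy1⟩ := x0 (e0 - f0) (by rw [map_sub, h0, g0, sub_self])
    obtain ⟨y2, hy2⟩ := x1 (e1 - f1 - (r1 c y1 - y1)) (by
      rw [map_sub, map_sub, map_sub, hd0, hy1, h1, g1, map_sub]
      abel)
    obtain ⟨y3, hy3⟩ := x2 (e2 - f2 - N2 y2) (by
      rw [map_sub, map_sub, dN1, hy2, h2, g2]
      simp only [map_sub, c1]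
      abel)
    obtain ⟨m, hm⟩ := x3 (e3 - f3 - (r3 c y3 - y3)) (by
      rw [map_sub, map_sub, map_sub, hd2, hy3, h3, g3]
      simp only [map_sub, c5]
      abel)
    refine ⟨m, ?_⟩
    have e1' : N3 (e3 - f3 - (r3 c y3 - y3)) = (k - k') • i := by
      simp only [map_sub, c3, h4, g4, sub_self, sub_zero, sub_smul]
    have e2' : N3 (m • i) = (7 * m) • i := by
      rw [map_zsmul, iN, smul_smul, mul_comm]
    rw [hm, e2'] at e1'
    have e3' : ((7 * m) - (k - k')) • i = 0 := by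
      rw [sub_smul, e1', sub_self]
    have := tf _ e3'
    linarith
  obtain ⟨e0, h0⟩ := hsurj
  obtain ⟨e1, e2, e3, k, hE⟩ := exist a (Or.inl rfl) e0 h0
  obtain ⟨f1, f2, f3, kf, hF⟩ := exist a (Or.inl rfl) (r0 b e0) (by rw [he, h0])
  obtain ⟨m1, hm1⟩ := uniq a (Or.inl rfl) _ _ _ _ _ _ _ _ _ _ hE hF
  obtain ⟨-, h1, h2, h3, h4⟩ := (hL _ _ _ _ _ _).1 hE
  obtain ⟨g0, g1, g2, g3, g4⟩ := (hL _ _ _ _ _ _).1 hF
  have hmg : ∀ {E : Type} [AddCommGroup E] (r : Γ →* AddMonoid.End E) (x : E),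
      r b (r a x) = r (a ^ 4) (r b x) := by
    intro E _ r x
    have h1 : r b (r a x) = r (b * a) x := by rw [map_mul]; rfl
    have h2 : r (a ^ 4) (r b x) = r (a ^ 4 * b) x := by rw [map_mul (r) (a ^ 4) b]; rfl
    rw [h1, h2, hab]
  have l1 : L (a ^ 4) (r0 b e0) (r1 b e1) (r2 b e2) (r3 b e3) k := by
    rw [hL]
    refine ⟨by rw [he, h0], ?_, ?_, ?_, ?_⟩
    · rw [hd0, h1, map_sub, hmg r0]
    · rw [hd1, h2, N1b]
    · rw [hd2, h3, map_sub, hmg r2]
    · rw [N3b, h4, map_zsmul, ib]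
  have l2 : L (a ^ 4) (r0 b e0) (U1 f1) (U2 f2) (U3 (U3 f3)) (16 * kf) := by
    rw [hL]
    refine ⟨by rw [he, h0], ?_, ?_, ?_, ?_⟩
    · rw [dU0, g1, U0a]
    · rw [dU1, g2, U1N, N1U]
    · rw [dU2, dU2, g3, U2a, map_sub]
      have : ∀ x, U2 (r2 (a ^ 4) x) = r2 (a ^ 4) (U2 x) := by
        intro x
        rw [hU2, hU2]
        have hm2 : ∀ (g h : Γ) (x : E2), r2 g (r2 h x) = r2 (g * h) x := by
          intro g h x
          rw [map_mul]
          rfl
        simp only [map_add, hm2]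
        rw [show a * a ^ 4 = a ^ 4 * a by group, show a ^ 2 * a ^ 4 = a ^ 4 * a ^ 2 by group,
          show a ^ 3 * a ^ 4 = a ^ 4 * a ^ 3 by group]
      rw [this]
    · rw [N3U, N3U, g4, smul_smul, smul_smul]
      norm_num
  obtain ⟨m2, hm2⟩ := uniq (a ^ 4) (Or.inr rfl) _ _ _ _ _ _ _ _ _ _ l1 l2
  obtain ⟨m, hm⟩ : ∃ m : ℤ, k = 7 * m := ⟨16 * m1 - m2 - 2 * k, by linarith⟩
  -- step III
  obtain ⟨z3, hz3⟩ := al3 (e3 - m • i) (by
    rw [← hN3, map_sub, h4, map_zsmul, iN, smul_smul, hm, mul_comm, sub_self])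
  obtain ⟨z2, hz2⟩ := be2 (e2 - d2 z3) (by
    rw [map_sub, ← hd2]
    have e5 : d2 (e3 - m • i) = d2 (r3 a z3 - z3) := by rw [hz3]
    rw [map_sub, map_zsmul, hi, smul_zero, sub_zero, h3, map_sub] at e5
    have e6 : r2 a e2 = e2 + (d2 (r3 a z3) - d2 z3) := by rw [← e5]; abel
    rw [e6]
    abel)
  rw [← hN2] at hz2
  obtain ⟨z1, hz1⟩ := al1 (e1 - d1 z2) (by
    rw [← hN1, map_sub, ← dN1, ← hz2, ← h2, map_sub, hdd1, sub_zero, sub_self])
  obtain ⟨z0, hz0⟩ := be0 (e0 - d0 z1) (by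
    rw [map_sub, ← hd0]
    have e5 : d0 (e1 - d1 z2) = d0 (r1 a z1 - z1) := by rw [hz1]
    rw [map_sub, hdd0, sub_zero, h1, map_sub] at e5
    have e6 : r0 a e0 = e0 + (d0 (r1 a z1) - d0 z1) := by rw [← e5]; abel
    rw [e6]
    abel)
  rw [← hN0] at hz0
  have e7 := congrArg e hz0
  rw [map_sub, hed, h0, eU0] at e7
  omega

/-- restricted action on the kernel -/
noncomputable def kerAct {Γ Y : Type} [Group Γ] [TopologicalSpace Y]
    [MulAction Γ Y] [ContinuousConstSMul Γ Y] (f : Ch Y 3 →+ Ch Y 3)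
    (hf : ∀ (g : Γ) (x : Ch Y 3), f (perm Γ (Sing Y 3) g x) = perm Γ (Sing Y 3) g (f x)) :
    Γ →* AddMonoid.End f.ker where
  toFun g :=
    { toFun := fun x => ⟨perm Γ (Sing Y 3) g x.1, by
        have h : f x.1 = 0 := x.2
        rw [AddMonoidHom.mem_ker, hf, h, map_zero]⟩
      map_zero' := by
        apply Subtype.ext
        exact map_zero _
      map_add' := fun x y => by
        apply Subtype.ext
        exact map_add _ _ _ }
  map_one' := by
    apply AddMonoidHom.ext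
    intro x
    apply Subtype.ext
    show perm Γ (Sing Y 3) 1 x.1 = x.1
    rw [map_one]
    rfl
  map_mul' g h := by
    apply AddMonoidHom.ext
    intro x
    apply Subtype.ext
    show perm Γ (Sing Y 3) (g * h) x.1 = perm Γ (Sing Y 3) g (perm Γ (Sing Y 3) h x.1)
    rw [map_mul]
    rfl

theorem exact_of_subsingleton {Y : Type} [TopologicalSpace Y] (n : ℕ)
    (h : Subsingleton (Homology Y (n + 1))) (x : Ch Y (n + 1)) (hx : bd Y n x = 0) :
    ∃ y : Ch Y (n + 2), bd Y (n + 1) y = x := by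
  have hx' : x ∈ cycles Y (n + 1) := hx
  have h1 : (QuotientAddGroup.mk (⟨x, hx'⟩ : cycles Y (n + 1)) : Homology Y (n + 1)) = 0 :=
    Subsingleton.elim _ _
  rw [QuotientAddGroup.eq_zero_iff] at h1
  exact h1

theorem sing_free {Γ Y : Type} [Group Γ] [TopologicalSpace Y]
    [MulAction Γ Y] [ContinuousConstSMul Γ Y] (free : ∀ (g : Γ) (y : Y), g • y = y → g = 1)
    (a : Γ) (ha1 : a ≠ 1) (n : ℕ) (s : Sing Y n) : a • s ≠ s := by
  intro h
  let p : stdSimplex ℝ (Fin (n + 1)) := ⟨Pi.single 0 1, single_mem_stdSimplex ℝ 0⟩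
  have h1 : (a • s) p = s p := by rw [h]
  exact ha1 (free a (s p) h1)


/-- no `Γ`-space with `H_0 = ℤ`, `H_1 = 0` and duality of dimension 3 -/
theorem main {Γ Y : Type} [Group Γ] [Finite Γ] [TopologicalSpace Y] [PathConnectedSpace Y]
    [MulAction Γ Y] [ContinuousConstSMul Γ Y] (free : ∀ (g : Γ) (y : Y), g • y = y → g = 1)
    (a b : Γ) (ha : a ^ 7 = 1) (ha1 : a ≠ 1) (hb : b ^ 3 = 1) (hab : b * a = a ^ 4 * b)
    (h1 : Subsingleton (Homology Y 1)) : ¬ Duality3 Γ Y := by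
  intro D
  have hH2 : Subsingleton (Homology Y 2) := by
    have h := coh1 (Γ := Γ) (Y := Y) h1
    obtain ⟨ψ⟩ := D.one
    exact ψ.symm.toEquiv.subsingleton
  obtain ⟨φ0⟩ := coh0 (Γ := Γ) (Y := Y)
  obtain ⟨φ1⟩ := D.zero
  let φ : Homology Y 3 ≃+ ℤ := φ1.symm.trans φ0
  obtain ⟨f, hfe, hfr, hfb⟩ := retract (Γ := Γ) (Y := Y) D.top
  have hff : ∀ x, f (f x) = f x := by
    intro x
    obtain ⟨y, hy⟩ := hfr x
    rw [← hy, hfb]
  have hbf : ∀ x, bd Y 2 (f x) = 0 := by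
    intro x
    obtain ⟨y, hy⟩ := hfr x
    rw [← hy, bd_bd]
  have hker : ∀ x, x - f x ∈ f.ker := by
    intro x
    rw [AddMonoidHom.mem_ker, map_sub, hff, sub_self]
  -- the generator
  obtain ⟨z, hz⟩ := QuotientAddGroup.mk_surjective (φ.symm 1)
  have hz0 : bd Y 2 z.1 = 0 := z.2
  let i : f.ker := ⟨z.1 - f z.1, hker z.1⟩
  let d2 : f.ker →+ Ch Y 2 := (bd Y 2).comp f.ker.subtype
  have hcls : ∀ x : cycles Y 3, (QuotientAddGroup.mk x : Homology Y 3) = 0 ↔
      ∃ w : Ch Y 4, bd Y 3 w = x.1 := by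
    intro x
    rw [QuotientAddGroup.eq_zero_iff]
    exact Iff.rfl
  refine core (perm Γ (Sing Y 0)) (perm Γ (Sing Y 1)) (perm Γ (Sing Y 2)) (kerAct f hfe)
    (bd Y 0) (bd Y 1) d2 (aug (Sing Y 0)) (bd_perm 0) (bd_perm 1) ?_ aug_perm aug_bd (bd_bd 0)
    (fun x => bd_bd 1 x.1) ?_
    (fun x hx => conn x hx) (exact_of_subsingleton 0 h1) ?_ i ?_ ?_ ?_ a b ha hb hab
    (perm_alpha a ha (sing_free free a ha1 0)) (perm_alpha a ha (sing_free free a ha1 1))
    (perm_alpha a ha (sing_free free a ha1 2)) ?_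
    (perm_beta a ha (sing_free free a ha1 0)) (perm_beta a ha (sing_free free a ha1 1))
    (perm_beta a ha (sing_free free a ha1 2))
  · intro g x
    exact bd_perm 2 g x.1
  · obtain ⟨y0⟩ := (inferInstance : Nonempty Y)
    refine ⟨Finsupp.single (ContinuousMap.const _ y0) 1, ?_⟩
    unfold aug
    rw [Finsupp.liftAddHom_apply_single]
    rfl
  · intro x hx
    obtain ⟨y, hy⟩ := exact_of_subsingleton 1 hH2 x hx
    refine ⟨⟨y - f y, hker y⟩, ?_⟩
    show bd Y 2 (y - f y) = x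
    rw [map_sub, hbf, sub_zero, hy]
  · show bd Y 2 (z.1 - f z.1) = 0
    rw [map_sub, hbf, hz0, sub_zero]
  · intro x hx
    have hx0 : bd Y 2 x.1 = 0 := hx
    have hxf : f x.1 = 0 := x.2
    let xc : cycles Y 3 := ⟨x.1, hx0⟩
    refine ⟨φ (QuotientAddGroup.mk xc), ?_⟩
    obtain ⟨m, hm⟩ : ∃ m : ℤ, m = φ (QuotientAddGroup.mk xc) := ⟨_, rfl⟩
    rw [← hm]
    have h2 : (QuotientAddGroup.mk xc : Homology Y 3) = m • QuotientAddGroup.mk z := by
      rw [hz, ← map_zsmul, smul_eq_mul, mul_one, hm, AddEquiv.symm_apply_apply]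
    have h3 : (QuotientAddGroup.mk (xc - m • z) : Homology Y 3) = 0 := by
      rw [QuotientAddGroup.mk_sub, QuotientAddGroup.mk_zsmul, h2, sub_self]
    obtain ⟨w, hw⟩ := (hcls _).1 h3
    have h4 : bd Y 3 w = x.1 - m • z.1 := hw
    apply Subtype.ext
    show x.1 = m • (z.1 - f z.1)
    have h5 := hfb w
    rw [h4, map_sub, map_zsmul, hxf, zero_sub] at h5
    rw [smul_sub]
    have h6 : x.1 = m • z.1 + (x.1 - m • z.1) := by abel
    rw [h6, ← h5]
    abel
  · intro m hm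
    have h2 : m • (z.1 - f z.1) = 0 := congrArg Subtype.val hm
    have h3 : (QuotientAddGroup.mk (m • z) : Homology Y 3) = 0 := by
      rw [hcls]
      obtain ⟨w, hw⟩ := hfr (m • z.1)
      refine ⟨w, ?_⟩
      rw [hw, map_zsmul]
      show m • f z.1 = m • z.1
      rw [smul_sub, sub_eq_zero] at h2
      exact h2.symm
    rw [QuotientAddGroup.mk_zsmul, hz, ← map_zsmul, smul_eq_mul, mul_one] at h3
    have h4 := congrArg φ h3
    rwa [AddEquiv.apply_symm_apply, map_zero] at h4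
  · intro x hx
    have hxf : f x.1 = 0 := x.2
    have h2 : ∑ j ∈ Finset.range 7, perm Γ (Sing Y 3) (a ^ j) x.1 = 0 := by
      have h3 := congrArg (fun t : f.ker => t.1) hx
      simp only [AddSubgroup.val_finset_sum] at h3
      exact h3
    obtain ⟨y, hy⟩ := perm_alpha a ha (sing_free free a ha1 3) x.1 h2
    refine ⟨⟨y - f y, hker y⟩, ?_⟩
    apply Subtype.ext
    show x.1 = perm Γ (Sing Y 3) a (y - f y) - (y - f y)
    have h3 : f x.1 = perm Γ (Sing Y 3) a (f y) - f y := by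
      rw [hy, map_sub, hfe]
    rw [hxf] at h3
    rw [map_sub, hy]
    have h4 : perm Γ (Sing Y 3) a (f y) = f y := (sub_eq_zero.1 h3.symm)
    rw [h4]
    abel

section SC34843

open unitInterval

lemma sc_face0 (x : stdSimplex ℝ (Fin 2)) :
    (stdSimplex.map (Fin.succAbove (0 : Fin 3)) x) 0 = 0 ∧
    (stdSimplex.map (Fin.succAbove (0 : Fin 3)) x) 1 = x 0 ∧
    (stdSimplex.map (Fin.succAbove (0 : Fin 3)) x) 2 = x 1 := by
  refine ⟨?_, ?_, ?_⟩ <;>
  · rw [stdSimplex.map_coe, FunOnFinite.linearMap_apply_apply, Finset.sum_filter, Fin.sum_univ_two]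
    simp [Fin.succAbove, Fin.ext_iff]

lemma sc_face1 (x : stdSimplex ℝ (Fin 2)) :
    (stdSimplex.map (Fin.succAbove (1 : Fin 3)) x) 0 = x 0 ∧
    (stdSimplex.map (Fin.succAbove (1 : Fin 3)) x) 1 = 0 ∧
    (stdSimplex.map (Fin.succAbove (1 : Fin 3)) x) 2 = x 1 := by
  refine ⟨?_, ?_, ?_⟩ <;>
  · rw [stdSimplex.map_coe, FunOnFinite.linearMap_apply_apply, Finset.sum_filter, Fin.sum_univ_two]
    simp [Fin.succAbove, Fin.ext_iff]

lemma sc_face2 (x : stdSimplex ℝ (Fin 2)) :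
    (stdSimplex.map (Fin.succAbove (2 : Fin 3)) x) 0 = x 0 ∧
    (stdSimplex.map (Fin.succAbove (2 : Fin 3)) x) 1 = x 1 ∧
    (stdSimplex.map (Fin.succAbove (2 : Fin 3)) x) 2 = 0 := by
  refine ⟨?_, ?_, ?_⟩ <;>
  · rw [stdSimplex.map_coe, FunOnFinite.linearMap_apply_apply, Finset.sum_filter, Fin.sum_univ_two]
    simp [Fin.succAbove, Fin.ext_iff]

/-- tent function -/
noncomputable def sc_m (t : ℝ) : ℝ := min (2 * t) (2 - 2 * t)

/-- the map from the square to the triangle -/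
noncomputable def sc_phi : C(I × I, stdSimplex ℝ (Fin 3)) where
  toFun p := ⟨![1 - (p.2 : ℝ) - (1 - (p.1 : ℝ)) * sc_m p.2 / 2, (1 - (p.1 : ℝ)) * sc_m p.2,
      (p.2 : ℝ) - (1 - (p.1 : ℝ)) * sc_m p.2 / 2], by
    have h1 : 0 ≤ (p.1 : ℝ) := p.1.2.1
    have h2 : (p.1 : ℝ) ≤ 1 := p.1.2.2
    have h3 : 0 ≤ (p.2 : ℝ) := p.2.2.1
    have h4 : (p.2 : ℝ) ≤ 1 := p.2.2.2
    have h5 : 0 ≤ sc_m p.2 := le_min (by linarith) (by linarith)
    have h6 : sc_m p.2 ≤ 2 * p.2 := min_le_left _ _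
    have h7 : sc_m p.2 ≤ 2 - 2 * p.2 := min_le_right _ _
    have h8 : (1 - (p.1 : ℝ)) * sc_m p.2 ≤ sc_m p.2 := by nlinarith
    have h9 : 0 ≤ (1 - (p.1 : ℝ)) * sc_m p.2 := mul_nonneg (by linarith) h5
    refine ⟨?_, ?_⟩
    · intro i
      fin_cases i
      · show 0 ≤ 1 - (p.2 : ℝ) - (1 - (p.1 : ℝ)) * sc_m p.2 / 2
        linarith
      · show 0 ≤ (1 - (p.1 : ℝ)) * sc_m p.2
        exact h9
      · show 0 ≤ (p.2 : ℝ) - (1 - (p.1 : ℝ)) * sc_m p.2 / 2
        linarith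
    · rw [Fin.sum_univ_three]
      show 1 - (p.2 : ℝ) - (1 - (p.1 : ℝ)) * sc_m p.2 / 2 + (1 - (p.1 : ℝ)) * sc_m p.2 +
        ((p.2 : ℝ) - (1 - (p.1 : ℝ)) * sc_m p.2 / 2) = 1
      ring⟩
  continuous_toFun := by
    apply Continuous.subtype_mk
    have hm : Continuous (fun p : I × I => sc_m p.2) := by unfold sc_m; fun_prop
    apply continuous_pi
    intro i
    fin_cases i
    · show Continuous fun p : I × I => 1 - (p.2 : ℝ) - (1 - (p.1 : ℝ)) * sc_m p.2 / 2
      fun_prop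
    · show Continuous fun p : I × I => (1 - (p.1 : ℝ)) * sc_m p.2
      fun_prop
    · show Continuous fun p : I × I => (p.2 : ℝ) - (1 - (p.1 : ℝ)) * sc_m p.2 / 2
      fun_prop

lemma sc_phi0 (p : I × I) : sc_phi p 0 = 1 - (p.2 : ℝ) - (1 - (p.1 : ℝ)) * sc_m p.2 / 2 := rfl
lemma sc_phi1 (p : I × I) : sc_phi p 1 = (1 - (p.1 : ℝ)) * sc_m p.2 := rfl
lemma sc_phi2 (p : I × I) : sc_phi p 2 = (p.2 : ℝ) - (1 - (p.1 : ℝ)) * sc_m p.2 / 2 := rfl

lemma sc_ext3 (x y : stdSimplex ℝ (Fin 3)) (h1 : x 1 = y 1) (h2 : x 2 = y 2) : x = y := by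
  have hx := stdSimplex.sum_eq_one x
  have hy := stdSimplex.sum_eq_one y
  rw [Fin.sum_univ_three] at hx hy
  have h0 : x 0 = y 0 := by linarith
  apply Subtype.ext
  funext i
  fin_cases i
  · exact h0
  · exact h1
  · exact h2

lemma sc_ext2 (x y : stdSimplex ℝ (Fin 2)) (h1 : x 1 = y 1) : x = y := by
  have hx := stdSimplex.sum_eq_one x
  have hy := stdSimplex.sum_eq_one y
  rw [Fin.sum_univ_two] at hx hy
  have h0 : x 0 = y 0 := by linarith
  apply Subtype.ext
  funext i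
  fin_cases i
  · exact h0
  · exact h1

lemma sc_surj : Function.Surjective sc_phi := by
  intro x
  have hx := stdSimplex.sum_eq_one x
  rw [Fin.sum_univ_three] at hx
  have h0 := stdSimplex.zero_le x 0
  have h1 := stdSimplex.zero_le x 1
  have h2 := stdSimplex.zero_le x 2
  let t : I := ⟨x 2 + x 1 / 2, by constructor <;> linarith⟩
  have ht : (t : ℝ) = x 2 + x 1 / 2 := rfl
  have hm : x 1 ≤ sc_m t := by
    unfold sc_m
    rw [ht]
    apply le_min <;> linarith
  by_cases hm0 : sc_m t = 0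
  · refine ⟨(0, t), sc_ext3 _ _ ?_ ?_⟩
    · rw [sc_phi1]
      show (1 - (0 : ℝ)) * sc_m t = x 1
      rw [hm0] at hm ⊢
      linarith
    · rw [sc_phi2]
      show (t : ℝ) - (1 - (0 : ℝ)) * sc_m t / 2 = x 2
      rw [hm0] at hm ⊢
      rw [ht]; linarith
  · have hmp : 0 < sc_m t := lt_of_le_of_ne (h1.trans hm) (Ne.symm hm0)
    have hd1 : x 1 / sc_m t ≤ 1 := (div_le_one hmp).2 hm
    have hd0 : 0 ≤ x 1 / sc_m t := div_nonneg h1 hmp.le
    let s : I := ⟨1 - x 1 / sc_m t, by constructor <;> linarith⟩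
    have hs : (1 - (s : ℝ)) * sc_m t = x 1 := by
      show (1 - (1 - x 1 / sc_m t)) * sc_m t = x 1
      rw [sub_sub_cancel, div_mul_cancel₀ _ hm0]
    refine ⟨(s, t), sc_ext3 _ _ ?_ ?_⟩
    · rw [sc_phi1]; exact hs
    · rw [sc_phi2]
      show (t : ℝ) - (1 - (s : ℝ)) * sc_m t / 2 = x 2
      rw [hs, ht]; ring

lemma sc_quot : Topology.IsQuotientMap sc_phi :=
  IsClosedMap.isQuotientMap (sc_phi.continuous.isClosedMap) sc_phi.continuous sc_surj

lemma sc_fib (p q : I × I) (h : sc_phi p = sc_phi q) : p = q ∨ (p.2 = q.2 ∧ (p.2 = 0 ∨ p.2 = 1)) := by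
  have h1 : sc_phi p 1 = sc_phi q 1 := by rw [h]
  have h2 : sc_phi p 2 = sc_phi q 2 := by rw [h]
  rw [sc_phi1, sc_phi1] at h1
  rw [sc_phi2, sc_phi2] at h2
  have h3 : (p.2 : ℝ) = q.2 := by linarith
  have h3' : p.2 = q.2 := Subtype.ext h3
  rw [← h3'] at h1
  have h4 : ((p.1 : ℝ) - q.1) * sc_m p.2 = 0 := by linarith
  rcases mul_eq_zero.1 h4 with h5 | h5
  · left
    exact Prod.ext (Subtype.ext (by linarith)) h3'
  · right
    refine ⟨h3', ?_⟩
    unfold sc_m at h5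
    rcases min_choice (2 * (p.2 : ℝ)) (2 - 2 * (p.2 : ℝ)) with h6 | h6
    · left
      apply Subtype.ext
      rw [h6] at h5
      show (p.2 : ℝ) = 0
      linarith
    · right
      apply Subtype.ext
      rw [h6] at h5
      show (p.2 : ℝ) = 1
      linarith

/-- coordinate of the segment -/
noncomputable def sc_t : stdSimplex ℝ (Fin 2) ≃ₜ I := stdSimplexHomeomorphUnitInterval

lemma sc_t_coe (x : stdSimplex ℝ (Fin 2)) : ((sc_t x : I) : ℝ) = x 1 := rfl

lemma sc_fill {Y : Type} [TopologicalSpace Y] [SimplyConnectedSpace Y] {y0 a b : Y}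
    (p01 : Path y0 a) (p12 : Path a b) (p02 : Path y0 b) :
    ∃ T : Sing Y 2, (∀ x : stdSimplex ℝ (Fin 2), T (stdSimplex.map (Fin.succAbove (0 : Fin 3)) x) = p12 (sc_t x)) ∧
      (∀ x : stdSimplex ℝ (Fin 2), T (stdSimplex.map (Fin.succAbove (1 : Fin 3)) x) = p02 (sc_t x)) ∧
      (∀ x : stdSimplex ℝ (Fin 2), T (stdSimplex.map (Fin.succAbove (2 : Fin 3)) x) = p01 (sc_t x)) := by
  obtain ⟨H⟩ := SimplyConnectedSpace.paths_homotopic (p01.trans p12) p02
  let g : C(I × I, Y) := ⟨fun p => H p, map_continuous H⟩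
  have hg : ∀ p, g p = H p := fun p => rfl
  have hfac : Function.FactorsThrough g sc_phi := by
    intro p q h
    rcases sc_fib p q h with h1 | ⟨h1, h2 | h2⟩
    · rw [h1]
    · have hp : p = (p.1, 0) := Prod.ext rfl h2
      have hq : q = (q.1, 0) := Prod.ext rfl (h1 ▸ h2)
      rw [hg, hg, hp, hq, H.source, H.source]
    · have hp : p = (p.1, 1) := Prod.ext rfl h2
      have hq : q = (q.1, 1) := Prod.ext rfl (h1 ▸ h2)
      rw [hg, hg, hp, hq, H.target, H.target]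
  let T : C(stdSimplex ℝ (Fin 3), Y) := sc_quot.lift g hfac
  have hT : ∀ p, T (sc_phi p) = H p := by
    intro p
    have h := congrArg (fun f : C(I × I, Y) => f p) (sc_quot.lift_comp g hfac)
    exact h
  refine ⟨T, ?_, ?_, ?_⟩
  · intro x
    have hx := stdSimplex.sum_eq_one x
    rw [Fin.sum_univ_two] at hx
    have h0 := stdSimplex.zero_le x 0
    have h1 := stdSimplex.zero_le x 1
    let t : I := ⟨(1 + x 1) / 2, by constructor <;> linarith⟩
    have ht : (t : ℝ) = (1 + x 1) / 2 := rfl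
    have hm : sc_m t = x 0 := by
      unfold sc_m
      rw [ht, min_eq_right (by linarith)]
      linarith
    have e : stdSimplex.map (Fin.succAbove (0 : Fin 3)) x = sc_phi (0, t) := by
      apply sc_ext3
      · rw [(sc_face0 x).2.1, sc_phi1]
        show x 0 = (1 - (0 : ℝ)) * sc_m t
        rw [hm]; ring
      · rw [(sc_face0 x).2.2, sc_phi2]
        show x 1 = (t : ℝ) - (1 - (0 : ℝ)) * sc_m t / 2
        rw [hm, ht]; linarith
    rw [e, hT, H.apply_zero]
    show (p01.trans p12) t = p12 (sc_t x)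
    rw [Path.trans_apply]
    split_ifs with h
    · have hx1 : x 1 = 0 := by rw [ht] at h; linarith
      have e1 : (sc_t x) = 0 := Subtype.ext hx1
      rw [e1, p12.source]
      have e2 : (⟨2 * (t : ℝ), (unitInterval.mul_pos_mem_iff zero_lt_two).2 ⟨t.2.1, h⟩⟩ : I) = 1 := by
        apply Subtype.ext
        show 2 * (t : ℝ) = 1
        rw [ht, hx1]; norm_num
      rw [e2, p01.target]
    · congr 1
      apply Subtype.ext
      show 2 * (t : ℝ) - 1 = x 1
      rw [ht]; ring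
  · intro x
    have hx := stdSimplex.sum_eq_one x
    rw [Fin.sum_univ_two] at hx
    have e : stdSimplex.map (Fin.succAbove (1 : Fin 3)) x = sc_phi (1, sc_t x) := by
      apply sc_ext3
      · rw [(sc_face1 x).2.1, sc_phi1]
        show 0 = (1 - (1 : ℝ)) * sc_m (sc_t x)
        ring
      · rw [(sc_face1 x).2.2, sc_phi2]
        show x 1 = x 1 - (1 - (1 : ℝ)) * sc_m (sc_t x) / 2
        ring
    rw [e, hT, H.apply_one]
    rfl
  · intro x
    have hx := stdSimplex.sum_eq_one x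
    rw [Fin.sum_univ_two] at hx
    have h0 := stdSimplex.zero_le x 0
    have h1 := stdSimplex.zero_le x 1
    let t : I := ⟨x 1 / 2, by constructor <;> linarith⟩
    have ht : (t : ℝ) = x 1 / 2 := rfl
    have hm : sc_m t = x 1 := by
      unfold sc_m
      rw [ht, min_eq_left (by linarith)]
      linarith
    have e : stdSimplex.map (Fin.succAbove (2 : Fin 3)) x = sc_phi (0, t) := by
      apply sc_ext3
      · rw [(sc_face2 x).2.1, sc_phi1]
        show x 1 = (1 - (0 : ℝ)) * sc_m t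
        rw [hm]; ring
      · rw [(sc_face2 x).2.2, sc_phi2]
        show 0 = (t : ℝ) - (1 - (0 : ℝ)) * sc_m t / 2
        rw [hm, ht]; ring
    rw [e, hT, H.apply_zero]
    show (p01.trans p12) t = p01 (sc_t x)
    have h : (t : ℝ) ≤ 1 / 2 := by rw [ht]; linarith
    rw [Path.trans_apply, dif_pos h]
    congr 1
    apply Subtype.ext
    show 2 * (t : ℝ) = x 1
    rw [ht]; ring

/-- the path of an edge -/
noncomputable def sc_path {Y : Type} [TopologicalSpace Y] (ss : Sing Y 1) :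
    Path (ss (sc_t.symm 0)) (ss (sc_t.symm 1)) where
  toFun t := ss (sc_t.symm t)
  continuous_toFun := ss.continuous.comp sc_t.symm.continuous
  source' := rfl
  target' := rfl

variable {Y : Type} [TopologicalSpace Y] [SimplyConnectedSpace Y]

/-- the edge from the base point to `y` -/
noncomputable def sc_g (y0 y : Y) : Sing Y 1 :=
  (PathConnectedSpace.somePath y0 y).toContinuousMap.comp ⟨sc_t, sc_t.continuous⟩

lemma sc_ex (y0 : Y) (ss : Sing Y 1) : ∃ T : Sing Y 2, face 1 0 T = ss ∧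
    face 1 1 T = sc_g y0 (ss (sc_t.symm 1)) ∧ face 1 2 T = sc_g y0 (ss (sc_t.symm 0)) := by
  obtain ⟨T, h0, h1, h2⟩ := sc_fill (PathConnectedSpace.somePath y0 (ss (sc_t.symm 0)))
    (sc_path ss) (PathConnectedSpace.somePath y0 (ss (sc_t.symm 1)))
  refine ⟨T, ?_, ?_, ?_⟩
  · ext x
    refine (h0 x).trans ?_
    show ss (sc_t.symm (sc_t x)) = ss x
    rw [Homeomorph.symm_apply_apply]
  · ext x
    exact h1 x
  · ext x
    exact h2 x

noncomputable def sc_T (y0 : Y) (ss : Sing Y 1) : Sing Y 2 := (sc_ex y0 ss).choose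

lemma sc_T_spec (y0 : Y) (ss : Sing Y 1) : face 1 0 (sc_T y0 ss) = ss ∧
    face 1 1 (sc_T y0 ss) = sc_g y0 (ss (sc_t.symm 1)) ∧
    face 1 2 (sc_T y0 ss) = sc_g y0 (ss (sc_t.symm 0)) := (sc_ex y0 ss).choose_spec

noncomputable def sc_TT (y0 : Y) : Ch Y 1 →+ Ch Y 2 :=
  Finsupp.liftAddHom fun ss => zmultiplesHom _ (Finsupp.single (sc_T y0 ss) 1)

noncomputable def sc_G (y0 : Y) : Ch Y 0 →+ Ch Y 1 :=
  Finsupp.liftAddHom fun τ => zmultiplesHom _ (Finsupp.single (sc_g y0 (τ (stdSimplex.vertex 0))) 1)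

lemma sc_bd_single (n : ℕ) (ss : Sing Y (n + 1)) : bd Y n (Finsupp.single ss 1) =
    ∑ i : Fin (n + 2), (-1 : ℤ) ^ (i : ℕ) • Finsupp.single (face n i ss) 1 := by
  simp [bd]

lemma sc_TT_single (y0 : Y) (ss : Sing Y 1) :
    sc_TT y0 (Finsupp.single ss 1) = Finsupp.single (sc_T y0 ss) 1 := by
  simp [sc_TT]

lemma sc_G_single (y0 : Y) (τ : Sing Y 0) :
    sc_G y0 (Finsupp.single τ 1) = Finsupp.single (sc_g y0 (τ (stdSimplex.vertex 0))) 1 := by
  simp [sc_G]

lemma sc_key (y0 : Y) (c : Ch Y 1) : bd Y 1 (sc_TT y0 c) + sc_G y0 (bd Y 0 c) = c := by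
  have h : (bd Y 1).comp (sc_TT y0) + (sc_G y0).comp (bd Y 0) = AddMonoidHom.id _ := by
    refine Finsupp.addHom_ext fun ss n => ?_
    have hn : Finsupp.single ss n = n • Finsupp.single ss (1 : ℤ) := by
      rw [Finsupp.smul_single, smul_eq_mul, mul_one]
    rw [hn, map_zsmul, map_zsmul]
    congr 1
    show bd Y 1 (sc_TT y0 (Finsupp.single ss 1)) + sc_G y0 (bd Y 0 (Finsupp.single ss 1)) =
      Finsupp.single ss 1
    obtain ⟨h0, h1, h2⟩ := sc_T_spec y0 ss
    rw [sc_TT_single, sc_bd_single, sc_bd_single, Fin.sum_univ_three, Fin.sum_univ_two, h0, h1, h2]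
    have e0 : (face 0 0 ss) (stdSimplex.vertex 0) = ss (sc_t.symm 1) := by
      show ss (stdSimplex.map (Fin.succAbove (0 : Fin 2)) (stdSimplex.vertex 0)) = ss (sc_t.symm 1)
      congr 1
      apply sc_ext2
      rw [stdSimplex.map_vertex]
      rw [← sc_t_coe, ← sc_t_coe, Homeomorph.apply_symm_apply]
      show (Pi.single (Fin.succAbove (0 : Fin 2) 0) (1 : ℝ) : Fin 2 → ℝ) 1 = 1
      simp
    have e1 : (face 0 1 ss) (stdSimplex.vertex 0) = ss (sc_t.symm 0) := by
      show ss (stdSimplex.map (Fin.succAbove (1 : Fin 2)) (stdSimplex.vertex 0)) = ss (sc_t.symm 0)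
      congr 1
      apply sc_ext2
      rw [stdSimplex.map_vertex]
      rw [← sc_t_coe, ← sc_t_coe, Homeomorph.apply_symm_apply]
      show (Pi.single (Fin.succAbove (1 : Fin 2) 0) (1 : ℝ) : Fin 2 → ℝ) 1 = 0
      simp
    rw [map_add, map_zsmul, map_zsmul, sc_G_single, sc_G_single, e0, e1]
    simp only [Fin.val_zero, Fin.val_one, Fin.val_two, pow_zero, pow_one, one_smul, neg_smul]
    norm_num
    abel
  exact DFunLike.congr_fun h c

end SC34843

/-- singular homology of a simply connected space -/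
theorem simply_connected {Y : Type} [TopologicalSpace Y] [SimplyConnectedSpace Y] :
    Subsingleton (Homology Y 1) := by
  obtain ⟨y0⟩ : Nonempty Y := inferInstance
  have hz : ∀ q : Homology Y 1, q = 0 := by
    intro q
    induction q using QuotientAddGroup.induction_on with
    | H c =>
      rw [QuotientAddGroup.eq_zero_iff, AddSubgroup.mem_addSubgroupOf]
      have hc : bd Y 0 (c : Ch Y 1) = 0 := c.2
      have hk := sc_key y0 (c : Ch Y 1)
      rw [hc, map_zero, add_zero] at hk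
      exact ⟨_, hk⟩
  exact ⟨fun a b => (hz a).trans (hz b).symm⟩

end Pool.Agent.Helper158.FG
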