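import Pool.Agent.Helper158.FG.Top

set_option autoImplicit false

namespace Pool.Agent.Helper158.FG

section core2aux

variable {Γ E : Type} [Group Γ] [AddCommGroup E] (r : Γ →* AddMonoid.End E)

theorem c2_mul (g h : Γ) (x : E) : r (g * h) x = r g (r h x) := by
  rw [map_mul]; rfl

theorem c2_one (x : E) : r 1 x = x := by
  rw [map_one]; rfl

theorem c2_aN (a : Γ) (ha : a ^ 7 = 1) (x : E) :
    r a (∑ j ∈ Finset.range 7, r (a ^ j) x) = ∑ j ∈ Finset.range 7, r (a ^ j) x := by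
  rw [map_sum]
  have h1 : ∀ j : ℕ, r a (r (a ^ j) x) = r (a ^ (j + 1)) x := by
    intro j
    rw [← c2_mul, pow_succ']
  simp only [h1]
  have h2 := Finset.sum_range_succ (fun j => r (a ^ j) x) 7
  have h3 := Finset.sum_range_succ' (fun j => r (a ^ j) x) 7
  have h4 : r (a ^ 7) x = r (a ^ 0) x := by rw [ha, pow_zero]
  rw [h2] at h3
  simp only [h4] at h3
  exact (add_right_cancel h3).symm

theorem c2_Na (a : Γ) (ha : a ^ 7 = 1) (x : E) :
    ∑ j ∈ Finset.range 7, r (a ^ j) (r a x) = ∑ j ∈ Finset.range 7, r (a ^ j) x := by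
  have h1 : ∀ j : ℕ, r (a ^ j) (r a x) = r (a ^ (j + 1)) x := by
    intro j
    rw [← c2_mul, pow_succ]
  simp only [h1]
  have h2 := Finset.sum_range_succ (fun j => r (a ^ j) x) 7
  have h3 := Finset.sum_range_succ' (fun j => r (a ^ j) x) 7
  have h4 : r (a ^ 7) x = r (a ^ 0) x := by rw [ha, pow_zero]
  rw [h2] at h3
  simp only [h4] at h3
  exact (add_right_cancel h3).symm

theorem c2_Nsub (a : Γ) (x y : E) :
    ∑ j ∈ Finset.range 7, r (a ^ j) (x - y) =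
      ∑ j ∈ Finset.range 7, r (a ^ j) x - ∑ j ∈ Finset.range 7, r (a ^ j) y := by
  simp only [map_sub, Finset.sum_sub_distrib]

theorem c2_Nadd (a : Γ) (x y : E) :
    ∑ j ∈ Finset.range 7, r (a ^ j) (x + y) =
      ∑ j ∈ Finset.range 7, r (a ^ j) x + ∑ j ∈ Finset.range 7, r (a ^ j) y := by
  simp only [map_add, Finset.sum_add_distrib]

theorem c2_conj (a b : Γ) (hab : b * a = a ^ 4 * b) (j : ℕ) : b * a ^ j = a ^ (4 * j) * b := by
  induction j with
  | zero => simp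
  | succ n ih =>
    rw [pow_succ, ← mul_assoc, ih, mul_assoc, hab, ← mul_assoc, ← pow_add]
    congr 1

theorem c2_bN (a b : Γ) (ha : a ^ 7 = 1) (hab : b * a = a ^ 4 * b) (x : E) :
    r b (∑ j ∈ Finset.range 7, r (a ^ j) x) = ∑ j ∈ Finset.range 7, r (a ^ j) (r b x) := by
  rw [map_sum]
  have h1 : ∀ j : ℕ, r b (r (a ^ j) x) = r (a ^ (4 * j)) (r b x) := by
    intro j
    rw [← c2_mul, ← c2_mul, c2_conj a b hab]
  simp only [h1]
  have p : ∀ k l : ℕ, k = 7 + l → a ^ k = a ^ l := by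
    intro k l h
    rw [h, pow_add, ha, one_mul]
  simp only [Finset.sum_range_succ, Finset.sum_range_zero]
  norm_num only
  rw [p 8 1 (by norm_num), p 12 5 (by norm_num), p 16 9 (by norm_num), p 9 2 (by norm_num),
    p 20 13 (by norm_num), p 13 6 (by norm_num), p 24 17 (by norm_num), p 17 10 (by norm_num),
    p 10 3 (by norm_num)]
  abel

/-- `1 + a + a² + a³` -/
theorem c2_mu (a : Γ) (y : E) :
    r a (y + r a y + r a (r a y) + r a (r a (r a y))) -
      (y + r a y + r a (r a y) + r a (r a (r a y))) = r (a ^ 4) y - y := by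
  have h : r (a ^ 4) y = r a (r a (r a (r a y))) := by
    rw [← c2_mul, ← c2_mul, ← c2_mul]
    congr 2
    simp only [pow_succ, pow_zero, one_mul, mul_assoc]
  rw [h]
  simp only [map_add]
  abel

end core2aux

theorem core2 {Γ E0 E1 E2 E3 : Type} [Group Γ] [AddCommGroup E0] [AddCommGroup E1]
    [AddCommGroup E2] [AddCommGroup E3]
    (r0 : Γ →* AddMonoid.End E0) (r1 : Γ →* AddMonoid.End E1) (r2 : Γ →* AddMonoid.End E2)
    (r3 : Γ →* AddMonoid.End E3)
    (d0 : E1 →+ E0) (d1 : E2 →+ E1) (d2 : E3 →+ E2) (e : E0 →+ ℤ)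
    (hd0 : ∀ g x, d0 (r1 g x) = r0 g (d0 x)) (hd1 : ∀ g x, d1 (r2 g x) = r1 g (d1 x))
    (hd2 : ∀ g x, d2 (r3 g x) = r2 g (d2 x)) (he : ∀ g x, e (r0 g x) = e x)
    (hed : ∀ x, e (d0 x) = 0) (hdd0 : ∀ x, d0 (d1 x) = 0) (hdd1 : ∀ x, d1 (d2 x) = 0)
    (hsurj : ∃ x, e x = 1)
    (x0 : ∀ x, e x = 0 → ∃ y, d0 y = x) (x1 : ∀ x, d0 x = 0 → ∃ y, d1 y = x)
    (x2 : ∀ x, d1 x = 0 → ∃ y, d2 y = x)
    (a b : Γ) (ha : a ^ 7 = 1) (hb : b ^ 3 = 1) (hab : b * a = a ^ 4 * b)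
    (al0 : ∀ x, ∑ j ∈ Finset.range 7, r0 (a ^ j) x = 0 → ∃ y, x = r0 a y - y)
    (al1 : ∀ x, ∑ j ∈ Finset.range 7, r1 (a ^ j) x = 0 → ∃ y, x = r1 a y - y)
    (al2 : ∀ x, ∑ j ∈ Finset.range 7, r2 (a ^ j) x = 0 → ∃ y, x = r2 a y - y)
    (be0 : ∀ x, r0 a x = x → ∃ y, x = ∑ j ∈ Finset.range 7, r0 (a ^ j) y)
    (be1 : ∀ x, r1 a x = x → ∃ y, x = ∑ j ∈ Finset.range 7, r1 (a ^ j) y)
    (be2 : ∀ x, r2 a x = x → ∃ y, x = ∑ j ∈ Finset.range 7, r2 (a ^ j) y)
    (c : E3) (hbc : r3 b c = c) (hN : d2 (∑ j ∈ Finset.range 7, r3 (a ^ j) c) = 0) :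
    ∃ v : E3, d2 (c - (r3 a v - v)) = 0 := by
  -- the norm commutes with the boundaries
  have N0 : ∀ x : E1, d0 (∑ j ∈ Finset.range 7, r1 (a ^ j) x) =
      ∑ j ∈ Finset.range 7, r0 (a ^ j) (d0 x) := by
    intro x
    rw [map_sum]
    simp only [hd0]
  have N1 : ∀ x : E2, d1 (∑ j ∈ Finset.range 7, r2 (a ^ j) x) =
      ∑ j ∈ Finset.range 7, r1 (a ^ j) (d1 x) := by
    intro x
    rw [map_sum]
    simp only [hd1]
  have N2 : ∀ x : E3, d2 (∑ j ∈ Finset.range 7, r3 (a ^ j) x) =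
      ∑ j ∈ Finset.range 7, r2 (a ^ j) (d2 x) := by
    intro x
    rw [map_sum]
    simp only [hd2]
  have Ne : ∀ x : E0, e (∑ j ∈ Finset.range 7, r0 (a ^ j) x) = 7 * e x := by
    intro x
    rw [map_sum]
    simp only [he]
    simp
  -- (I) a ladder exists
  obtain ⟨y2, hy2⟩ := al2 (d2 c) (by rw [← N2, hN])
  obtain ⟨y1, hy1⟩ := be1 (d1 y2) (by
    have h := congrArg d1 hy2
    rw [hdd1, map_sub, hd1] at h
    exact (sub_eq_zero.1 h.symm))
  obtain ⟨y0, hy0⟩ := al0 (d0 y1) (by rw [← N0, ← hy1, hdd0])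
  -- (II) two ladders
  have II : ∀ (z2 : E2) (z1 : E1) (z0 : E0), d2 c = r2 a z2 - z2 →
      d1 z2 = ∑ j ∈ Finset.range 7, r1 (a ^ j) z1 → d0 z1 = r0 a z0 - z0 →
      ∃ k : ℤ, e y0 - e z0 = 7 * k := by
    intro z2 z1 z0 hz2 hz1 hz0
    obtain ⟨v2, hv2⟩ := be2 (y2 - z2) (by
      rw [map_sub]
      have h := hy2.symm.trans hz2
      have h' : r2 a y2 - r2 a z2 - (y2 - z2) = (r2 a y2 - y2) - (r2 a z2 - z2) := by abel
      rw [← sub_eq_zero, h', h, sub_self])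
    obtain ⟨v1, hv1⟩ := al1 (y1 - z1 - d1 v2) (by
      rw [c2_Nsub, c2_Nsub, ← hy1, ← hz1, ← N1, ← hv2, map_sub, sub_self])
    obtain ⟨v0, hv0⟩ := be0 (y0 - z0 - d0 v1) (by
      have h := congrArg d0 hv1
      rw [map_sub, map_sub, hdd0, sub_zero, map_sub, hd0, hy0, hz0] at h
      rw [map_sub, map_sub, ← sub_eq_zero]
      have h' : r0 a y0 - r0 a z0 - r0 a (d0 v1) - (y0 - z0 - d0 v1) =
          (r0 a y0 - y0 - (r0 a z0 - z0)) - (r0 a (d0 v1) - d0 v1) := by abel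
      rw [h', h, sub_self])
    refine ⟨e v0, ?_⟩
    have h := congrArg e hv0
    rw [map_sub, map_sub, hed, sub_zero, Ne] at h
    exact h
  -- (III) the translate of the ladder by `b`
  have III : ∃ k : ℤ, e y0 - 16 * e y0 = 7 * k := by
    obtain ⟨k, hk⟩ := II
      (r2 b y2 + r2 a (r2 b y2) + r2 a (r2 a (r2 b y2)) + r2 a (r2 a (r2 a (r2 b y2))))
      (r1 b y1 + r1 a (r1 b y1) + r1 a (r1 a (r1 b y1)) + r1 a (r1 a (r1 a (r1 b y1))))
      ((r0 b y0 + r0 a (r0 b y0) + r0 a (r0 a (r0 b y0)) + r0 a (r0 a (r0 a (r0 b y0)))) +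
        r0 a (r0 b y0 + r0 a (r0 b y0) + r0 a (r0 a (r0 b y0)) + r0 a (r0 a (r0 a (r0 b y0)))) +
        r0 a (r0 a (r0 b y0 + r0 a (r0 b y0) + r0 a (r0 a (r0 b y0)) +
          r0 a (r0 a (r0 a (r0 b y0))))) +
        r0 a (r0 a (r0 a (r0 b y0 + r0 a (r0 b y0) + r0 a (r0 a (r0 b y0)) +
          r0 a (r0 a (r0 a (r0 b y0)))))))
      (by
        rw [c2_mu]
        have h := congrArg (r2 b) hy2
        rw [← hd2, hbc, map_sub] at h
        rw [h, ← c2_mul, ← c2_mul, hab])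
      (by
        rw [c2_Nadd, c2_Nadd, c2_Nadd, c2_Na r1 a ha, c2_Na r1 a ha, c2_Na r1 a ha,
          c2_Na r1 a ha, c2_Na r1 a ha, c2_Na r1 a ha]
        simp only [map_add, hd1, hy1, c2_bN r1 a b ha hab, c2_aN r1 a ha])
      (by
        have h : r0 b (d0 y1) = r0 b (r0 a y0) - r0 b y0 := by rw [hy0, map_sub]
        have h2 : r0 b (r0 a y0) = r0 a (r0 a (r0 a (r0 a (r0 b y0)))) := by
          have h4 : ∀ y : E0, r0 (a ^ 4) y = r0 a (r0 a (r0 a (r0 a y))) := by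
            intro y
            rw [← c2_mul, ← c2_mul, ← c2_mul]
            congr 2
            simp only [pow_succ, pow_zero, one_mul, mul_assoc]
          rw [← h4, ← c2_mul, ← c2_mul, hab]
        rw [h2] at h
        simp only [map_add, hd0, h, map_sub]
        abel)
    refine ⟨k, ?_⟩
    simp only [map_add, he] at hk
    linarith
  obtain ⟨k', hk'⟩ := III
  obtain ⟨k, hk⟩ : ∃ k : ℤ, e y0 = 7 * k := by
    refine ⟨-k' - 2 * e y0, ?_⟩
    linarith
  -- (IV)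
  obtain ⟨x, hx⟩ := hsurj
  obtain ⟨v1, hv1⟩ := x0 (y0 - k • ∑ j ∈ Finset.range 7, r0 (a ^ j) x) (by
    rw [map_sub, map_zsmul, Ne, hx, hk, smul_eq_mul]
    ring)
  obtain ⟨v2, hv2⟩ := x1 (y1 - (r1 a v1 - v1)) (by
    rw [map_sub, map_sub, hd0, hv1, hy0, map_sub, map_zsmul, c2_aN r0 a ha]
    abel)
  obtain ⟨v3, hv3⟩ := x2 (y2 - ∑ j ∈ Finset.range 7, r2 (a ^ j) v2) (by
    rw [map_sub, N1, hv2, c2_Nsub, c2_Nsub, c2_Na r1 a ha, hy1]
    abel)
  refine ⟨v3, ?_⟩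
  rw [map_sub, map_sub, hd2, hv3, map_sub, c2_aN r2 a ha, hy2]
  abel

/-- no `Γ`-space with `H_0 = ℤ`, `H_1 = 0` and duality of dimension 3 with coefficients `ℤ[Γ]` -/
theorem main2 {Γ Y : Type} [Group Γ] [Finite Γ] [TopologicalSpace Y] [PathConnectedSpace Y]
    [MulAction Γ Y] [ContinuousConstSMul Γ Y] (free : ∀ (g : Γ) (y : Y), g • y = y → g = 1)
    (a b : Γ) (ha : a ^ 7 = 1) (ha1 : a ≠ 1) (hb : b ^ 3 = 1) (hab : b * a = a ^ 4 * b)
    (hG : Function.Bijective fun p : Fin 7 × Fin 3 => a ^ (p.1 : ℕ) * b ^ (p.2 : ℕ))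
    (h1 : Subsingleton (Homology Y 1)) : ¬ Fundamental3 Γ Y := by
  rintro ⟨⟨φ⟩, w, c0, z, hz, hbd, hgen, huniq⟩
  have hsub2 : Subsingleton (Homology Y 2) := by
    haveI := coh1 (Γ := Γ) (Y := Y) h1
    exact φ.toEquiv.symm.subsingleton
  have exact1 : ∀ x : Ch Y 1, bd Y 0 x = 0 → ∃ y : Ch Y 2, bd Y 1 y = x := by
    intro x hx
    have hx' : x ∈ cycles Y 1 := hx
    have h0 : (QuotientAddGroup.mk (⟨x, hx'⟩ : cycles Y 1) : Homology Y 1) = 0 :=
      Subsingleton.elim _ _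
    rw [QuotientAddGroup.eq_zero_iff] at h0
    obtain ⟨y, hy⟩ := h0
    exact ⟨y, hy⟩
  have exact2 : ∀ x : Ch Y 2, bd Y 1 x = 0 → ∃ y : Ch Y 3, bd Y 2 y = x := by
    intro x hx
    have hx' : x ∈ cycles Y 2 := hx
    have h0 : (QuotientAddGroup.mk (⟨x, hx'⟩ : cycles Y 2) : Homology Y 2) = 0 :=
      Subsingleton.elim _ _
    rw [QuotientAddGroup.eq_zero_iff] at h0
    obtain ⟨y, hy⟩ := h0
    exact ⟨y, hy⟩
  -- the character is trivial
  have hwa : w a = 1 := by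
    have h : w a ^ 7 = 1 := by rw [← map_pow, ha, map_one]
    rcases Int.units_eq_one_or (w a) with h' | h'
    · exact h'
    · rw [h'] at h
      exact absurd h (by decide)
  have hwb : w b = 1 := by
    have h : w b ^ 3 = 1 := by rw [← map_pow, hb, map_one]
    rcases Int.units_eq_one_or (w b) with h' | h'
    · exact h'
    · rw [h'] at h
      exact absurd h (by decide)
  have hw : ∀ g : Γ, w g = 1 := by
    intro g
    obtain ⟨p, hp⟩ := hG.2 g
    rw [← hp]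
    simp [hwa, hwb]
  set P : Γ →* AddMonoid.End (Ch Y 3) := perm Γ (Sing Y 3) with hP
  have hmul : ∀ (g h : Γ) (x : Ch Y 3), P (g * h) x = P g (P h x) := by
    intro g h x
    rw [map_mul]
    rfl
  have hone : ∀ x : Ch Y 3, P 1 x = x := by
    intro x
    rw [map_one]
    rfl
  set c : Ch Y 3 := ∑ k ∈ Finset.range 3, P (b ^ k) c0 with hc
  have hbc : P b c = c := by
    rw [hc, map_sum]
    simp only [Finset.sum_range_succ, Finset.sum_range_zero, zero_add, ← hmul, pow_zero, mul_one,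
      pow_one]
    have e1 : b * b = b ^ 2 := by rw [sq]
    have e2 : b * b ^ 2 = 1 := by rw [← hb, pow_succ b 2, ← pow_succ', pow_succ]
    rw [e1, e2]
    abel
  have hzc : z = ∑ j ∈ Finset.range 7, P (a ^ j) c := by
    have h1 : z = ∑ᶠ g : Γ, P g c0 := by
      rw [hz]
      refine finsum_congr fun g => ?_
      rw [hw g]
      simp
    have h2 : (∑ᶠ g : Γ, P g c0) =
        ∑ᶠ p : Fin 7 × Fin 3, P (a ^ (p.1 : ℕ) * b ^ (p.2 : ℕ)) c0 :=
      (finsum_comp_equiv (Equiv.ofBijective _ hG) (f := fun g => P g c0)).symm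
    rw [h1, h2, finsum_eq_sum_of_fintype, Fintype.sum_prod_type]
    rw [Finset.sum_range]
    refine Finset.sum_congr rfl fun i _ => ?_
    rw [hc, map_sum, Finset.sum_range]
    refine Finset.sum_congr rfl fun k _ => ?_
    rw [hmul]
  have hfree : ∀ (n : ℕ) (s : Sing Y n), a • s ≠ s := by
    intro n s h
    obtain ⟨x0⟩ : Nonempty (stdSimplex ℝ (Fin (n + 1))) := inferInstance
    have h' : (a • s) x0 = s x0 := by rw [h]
    exact ha1 (free a (s x0) h')
  have hsurj : ∃ x : Ch Y 0, aug (Sing Y 0) x = 1 := by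
    obtain ⟨y0⟩ : Nonempty Y := inferInstance
    refine ⟨Finsupp.single (ContinuousMap.const _ y0) 1, ?_⟩
    simp [aug]
  obtain ⟨v, hv⟩ := core2 (perm Γ (Sing Y 0)) (perm Γ (Sing Y 1)) (perm Γ (Sing Y 2)) P
    (bd Y 0) (bd Y 1) (bd Y 2) (aug (Sing Y 0))
    (fun g x => bd_perm 0 g x) (fun g x => bd_perm 1 g x) (fun g x => bd_perm 2 g x)
    (fun g x => aug_perm g x) (fun x => aug_bd x) (fun x => bd_bd 0 x) (fun x => bd_bd 1 x)
    hsurj (fun x hx => conn x hx) exact1 exact2 a b ha hb hab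
    (fun x hx => perm_alpha a ha (hfree 0) x hx) (fun x hx => perm_alpha a ha (hfree 1) x hx)
    (fun x hx => perm_alpha a ha (hfree 2) x hx)
    (fun x hx => perm_beta a ha (hfree 0) x hx) (fun x hx => perm_beta a ha (hfree 1) x hx)
    (fun x hx => perm_beta a ha (hfree 2) x hx) c hbc (by rw [← hzc]; exact hbd)
  obtain ⟨m, y, hy⟩ := hgen _ hv
  -- the norm operator
  have haz : ∀ j : ℕ, P (a ^ j) z = z := by
    have h1 : P a z = z := by
      rw [hzc, map_sum]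
      simp only [← hmul, ← pow_succ']
      rw [Finset.sum_range_succ, ha, Finset.sum_range_succ' (fun j => P (a ^ j) c)]
      simp
    intro j
    induction j with
    | zero => simpa using hone z
    | succ j ih => rw [pow_succ, hmul, h1, ih]
  have hNd : ∑ j ∈ Finset.range 7, P (a ^ j) (P a v - v) = 0 := by
    simp only [map_sub, ← hmul, ← pow_succ]
    rw [Finset.sum_range_sub (fun j => P (a ^ j) v) 7, ha, pow_zero, sub_self]
  have key : (1 - 7 * m) • z = bd Y 3 (∑ j ∈ Finset.range 7, perm Γ (Sing Y 4) (a ^ j) y) := by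
    have h := congrArg (fun x => ∑ j ∈ Finset.range 7, P (a ^ j) x) hy
    simp only [map_sub (P _) c _, Finset.sum_sub_distrib] at h
    rw [← hzc] at h
    have h3 : ∑ j ∈ Finset.range 7, P (a ^ j) (m • z + bd Y 3 y) =
        (7 * m) • z + bd Y 3 (∑ j ∈ Finset.range 7, perm Γ (Sing Y 4) (a ^ j) y) := by
      simp only [map_add, map_zsmul, haz, Finset.sum_add_distrib, Finset.sum_const,
        Finset.card_range, map_sum, bd_perm]
      congr 1
      rw [← natCast_zsmul, smul_smul]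
      norm_num
    rw [h3] at h
    have h4 : ∑ j ∈ Finset.range 7, P (a ^ j) (P a v - v) = 0 := hNd
    rw [sub_smul, one_smul]
    have h5 : z - ∑ j ∈ Finset.range 7, P (a ^ j) (P a v - v) = z := by rw [h4, sub_zero]
    rw [h5] at h
    rw [sub_eq_iff_eq_add', ← h]
  have h0 := huniq _ _ key
  omega

end Pool.Agent.Helper158.FG
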